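import Pool.Agent.H320.GS.Cls

/-!
helper320: integral kernel dimensions imply the analytic zero divisor conjecture; injective
homomorphisms.
-/

set_option autoImplicit false

namespace Pool.Agent.H320.PG

open Filter Topology
open Pool.Agent.H371.SA Pool.Agent.H371.SB
open Pool.Agent.H80R2.BC (L2 GMat vdim kerA Coef act)
open Pool.Agent.W656.VA

/-- the conclusion of the analytic zero divisor conjecture -/
def NoAZD (G : Type) [Group G] : Prop :=
  ∀ α : G →₀ ℂ, α ≠ 0 → ∀ f : G → ℂ, Memℓp f 2 → f ≠ 0 →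
    ∃ g : G, ∑ k ∈ α.support, α k * f (k⁻¹ * g) ≠ 0

open Classical in
theorem dl_self {G ι : Type} [Group G] (i : ι) :
    (Pool.Agent.H80R2.BC.dl G i : L2 (ι × G)) (i, 1) = 1 := by
  unfold Pool.Agent.H80R2.BC.dl
  exact lp.single_apply_self (E := fun _ : ι × G => ℂ) 2 _ _

open Classical in
theorem dl_ne {G ι : Type} [Group G] (i : ι) (x : ι × G) (hx : x ≠ (i, 1)) :
    (Pool.Agent.H80R2.BC.dl G i : L2 (ι × G)) x = 0 := by
  unfold Pool.Agent.H80R2.BC.dl
  exact lp.single_apply_ne (E := fun _ : ι × G => ℂ) 2 _ _ hx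

theorem azd_of_int {G : Type} [Group G]
    (h : ∀ v : ℝ, Val (⊤ : Subring ℂ) G v → ∃ z : ℤ, v = z) : NoAZD G := by
  classical
  intro α hα f hf hf0
  by_contra hcon
  push Not at hcon
  let A : GMat Unit Unit G := fun _ _ => α
  let X : Matrix (Fin 1) (Fin 1) (G →₀ ℂ) := fun _ _ => α
  let A' : GMat (Fin 1) (Fin 1) G := fun _ _ => α
  obtain ⟨z, hz⟩ := h _ (val_of A' (R := ⊤) fun _ _ _ => Subring.mem_top _)
  have h0 : 0 ≤ vdim (kerA A') := vdim_nonneg _
  have h1 : vdim (kerA A') ≤ 1 := by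
    have := vdim_le_card (kerA A')
    simpa using this
  have hz01 : z ≤ 0 ∨ 1 ≤ z := by omega
  -- the function as an element of the kernel
  let y : Fin 1 × G → ℂ := fun x => f x.2⁻¹
  have hy : Memℓp y 2 := by
    have h2 : (0 : ℝ) < (2 : ENNReal).toReal := by norm_num
    rw [memℓp_gen_iff h2] at hf ⊢
    let e : Fin 1 × G ≃ G := (Equiv.uniqueProd G (Fin 1)).trans (Equiv.inv G)
    have h3 := (e.summable_iff (f := fun g => ‖f g‖ ^ (2 : ENNReal).toReal)).2 hf
    exact h3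
  let Y : L2 (Fin 1 × G) := ⟨y, hy⟩
  have hY : Y ∈ kerA A' := by
    intro k g
    have h2 := hcon g⁻¹
    change ∑ j : Fin 1, (α.sum fun h c => c * y (j, g * h)) = 0
    rw [Fin.sum_univ_one, Finsupp.sum, ← h2]
    refine Finset.sum_congr rfl fun h _ => ?_
    change α h * f (g * h)⁻¹ = _
    rw [mul_inv_rev]
  have hY0 : Y ≠ 0 := by
    intro h2
    apply hf0
    funext g
    have h3 := congrArg (fun w : L2 (Fin 1 × G) => w (0, g⁻¹)) h2
    have h4 : f (g⁻¹)⁻¹ = 0 := h3
    rwa [inv_inv] at h4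
  rcases hz01 with hz0 | hz1
  · have h2 : vdim (kerA A') ≤ 0 := by
      rw [hz]; exact_mod_cast hz0
    have h3 := eq_bot_of_vdim (isClosed_kerA A') (linv_kerA A') h2
    rw [h3] at hY
    exact hY0 ((Submodule.mem_bot ℂ).1 hY)
  · have h2 : (1 : ℝ) ≤ vdim (kerA A') := by
      rw [hz]; exact_mod_cast hz1
    have h3 : kerA A' = ⊤ := by
      refine eq_of_vdim (isClosed_kerA A') (linv_kerA A') isClosed_univ (fun _ _ _ _ _ => trivial)
        le_top ?_
      rw [vdim_top]
      simpa using h2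
    apply hα
    ext g
    have h4 : Pool.Agent.H80R2.BC.dl G (0 : Fin 1) ∈ kerA A' := by rw [h3]; trivial
    have h5 := h4 0 g⁻¹
    change ∑ j : Fin 1, (α.sum fun h c => c * (Pool.Agent.H80R2.BC.dl G (0 : Fin 1))
      (j, g⁻¹ * h)) = 0 at h5
    rw [Fin.sum_univ_one, Finsupp.sum, Finset.sum_eq_single g] at h5
    · rw [inv_mul_cancel] at h5
      have h6 : (Pool.Agent.H80R2.BC.dl G (0 : Fin 1) : L2 (Fin 1 × G)) (0, 1) = 1 := by
        exact dl_self (G := G) (0 : Fin 1)
      rw [h6, mul_one] at h5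
      exact h5
    · intro b _ hb
      have h6 : (Pool.Agent.H80R2.BC.dl G (0 : Fin 1) : L2 (Fin 1 × G)) (0, g⁻¹ * b) = 0 := by
        refine dl_ne (G := G) (0 : Fin 1) _ ?_
        intro h7
        apply hb
        have h8 := congrArg Prod.snd h7
        exact (inv_mul_eq_one.1 h8).symm
      rw [h6, mul_zero]
    · intro hg
      rw [Finsupp.notMem_support_iff.1 hg, zero_mul]

theorem azd_of_injective {G H : Type} [Group G] [Group H] (f : H →* G)
    (hf : Function.Injective f) (hG : NoAZD G) : NoAZD H := by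
  classical
  intro α hα x hx hx0
  let α' : G →₀ ℂ := α.embDomain ⟨f, hf⟩
  let x' : G → ℂ := Function.extend f x 0
  have hx'f : ∀ h, x' (f h) = x h := fun h => hf.extend_apply x 0 h
  have hx'0 : ∀ g, g ∉ Set.range f → x' g = 0 := fun g hg =>
    Function.extend_apply' x (0 : G → ℂ) g (fun ⟨a, ha⟩ => hg ⟨a, ha⟩)
  have hα' : α' ≠ 0 := by
    intro h
    apply hα
    exact Finsupp.embDomain_eq_zero.1 h
  have hx' : Memℓp x' 2 := by
    have h2 : (0 : ℝ) < (2 : ENNReal).toReal := by norm_num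
    rw [memℓp_gen_iff h2] at hx ⊢
    refine (hf.summable_iff (f := fun g => ‖x' g‖ ^ (2 : ENNReal).toReal) ?_).1 ?_
    · intro g hg
      rw [hx'0 g hg]
      simp
    · refine hx.congr fun h => ?_
      simp only [Function.comp_apply, hx'f]
  have hx'1 : x' ≠ 0 := by
    intro h
    apply hx0
    funext k
    rw [← hx'f, h]
    rfl
  obtain ⟨g, hg⟩ := hG α' hα' x' hx' hx'1
  have hsum : ∀ g, ∑ k ∈ α'.support, α' k * x' (k⁻¹ * g) =
      ∑ k ∈ α.support, α k * x' ((f k)⁻¹ * g) := by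
    intro g
    change ∑ k ∈ (α.embDomain ⟨f, hf⟩).support, _ = _
    rw [Finsupp.support_embDomain, Finset.sum_map]
    refine Finset.sum_congr rfl fun k _ => ?_
    change (α.embDomain ⟨f, hf⟩) ((⟨f, hf⟩ : H ↪ G) k) * _ = _
    rw [Finsupp.embDomain_apply_self]
    rfl
  rw [hsum] at hg
  by_cases hgr : g ∈ Set.range f
  · obtain ⟨h0, rfl⟩ := hgr
    refine ⟨h0, ?_⟩
    intro h1
    apply hg
    rw [← h1]
    refine Finset.sum_congr rfl fun k _ => ?_
    rw [← map_inv, ← map_mul, hx'f]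
  · exfalso
    apply hg
    refine Finset.sum_eq_zero fun k _ => ?_
    rw [hx'0 _ ?_, mul_zero]
    rintro ⟨a, ha⟩
    apply hgr
    refine ⟨k * a, ?_⟩
    rw [map_mul, ha, mul_inv_cancel_left]

end Pool.Agent.H320.PG
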