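import Pool.Agent.H320.GS.Act
import Pool.Agent.H320.GS.Azd
import Pool.Agent.H320.TF.Fin
import Pool.Agent.H371.SE.M13
import Pool.Agent.H371.SE.M14

/-!
helper320: the conditions at the primes for denominator one.
-/

set_option autoImplicit false

namespace Pool.Agent.H320.PG

open Pool.Agent.H371.SA Pool.Agent.H371.SB Pool.Agent.H320.TF

/-- the order of the image modulo `p` -/
noncomputable def imOrd (p : ℕ) {G : Type} {n : ℕ} (M : G → Matrix (Fin n) (Fin n) ℤ) : ℕ :=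
  Nat.card (Set.range fun g => (M g).map (Int.cast : ℤ → ZMod p))

/-- the condition at the prime `l`, for data at the prime `p` -/
def Good (l p : ℕ) [Fact p.Prime] {G : Type} {n : ℕ} (M : G → Matrix (Fin n) (Fin n) ℤ) : Prop :=
  (l = p ∨ ¬ l ∣ imOrd p M) ∧ (NoTorsion p M ∨ n + 1 < p ∨ (l ≠ p ∧ n < l * (p - 1)))

theorem cc_one_of_lt {p n : ℕ} (h : n + 1 < p) : cc p n = 1 := by
  have : n / (p - 1) = 0 := Nat.div_eq_of_lt (by omega)
  rw [cc, this]
  simp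

theorem not_dvd_cc {l p n : ℕ} (hl : l.Prime) (hp : p.Prime) (hlp : l ≠ p)
    (h : n < l * (p - 1)) : ¬ l ∣ cc p n := by
  intro h1
  rw [cc] at h1
  rcases hl.dvd_mul.1 h1 with h2 | h2
  · exact hlp ((Nat.prime_dvd_prime_iff_eq hl hp).1 (hl.dvd_of_dvd_pow h2))
  · have h3 := (hl.dvd_factorial).1 h2
    have h4 : n / (p - 1) < l := Nat.div_lt_of_lt_mul (by rw [mul_comm]; exact h)
    omega

/-- the data at one prime from the condition -/
theorem good_data (l p : ℕ) [hp : Fact p.Prime] (hl : l.Prime) {G : Type} [Group G] {n : ℕ}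
    (M : G → Matrix (Fin n) (Fin n) ℤ)
    (φ : G →* (Matrix (Fin n) (Fin n) ℤ_[p])ˣ)
    (hφ : ∀ g, ((φ g : (Matrix (Fin n) (Fin n) ℤ_[p])ˣ) : Matrix (Fin n) (Fin n) ℤ_[p]) =
      (M g).map (Int.cast : ℤ → ℤ_[p])) (hs : Sep p φ) (h : Good l p M) :
    ∃ c q : ℕ, GS p c q G ∧ ∃ r : ℕ, ¬ l ∣ r ∧ q * c ∣ r * 1 := by
  -- the denominator coming from the torsion
  obtain ⟨c, hc, hlc⟩ : ∃ c : ℕ, GS p c (imOrd p M) G ∧ ¬ l ∣ c := by
    rcases h.2 with h1 | h1 | h1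
    · exact ⟨1, GS.of_noT φ (noT_of_noTorsion p M h1 φ hφ) hs (quo_of_matrix p M φ hφ),
        fun h => hl.one_lt.ne' (Nat.dvd_one.1 h)⟩
    · refine ⟨cc p n, GS.of_cc φ hs (quo_of_matrix p M φ hφ), ?_⟩
      rw [cc_one_of_lt h1]
      exact fun h => hl.one_lt.ne' (Nat.dvd_one.1 h)
    · exact ⟨cc p n, GS.of_cc φ hs (quo_of_matrix p M φ hφ), not_dvd_cc hl hp.out h1.1 h1.2⟩
  have hne : imOrd p M ≠ 0 := by
    have : Finite (Set.range fun g => (M g).map (Int.cast : ℤ → ZMod p)) :=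
      Set.Finite.to_subtype (Set.toFinite _)
    have h2 : Nonempty (Set.range fun g => (M g).map (Int.cast : ℤ → ZMod p)) :=
      ⟨⟨_, 1, rfl⟩⟩
    exact Nat.card_pos.ne'
  obtain ⟨b, q, hq, hcard⟩ := Nat.exists_eq_pow_mul_and_not_dvd hne p hp.out.ne_one
  -- the prime to `p` part
  have hGS : GS p c q G := by
    obtain ⟨A, iR, iA, iF, iM, P, k, φ, χ, hk, hP, hχ, hc, h0, ⟨F, i1, i2, π, b', hF, hπ⟩, hs⟩ := hc
    refine ⟨A, iR, iA, iF, iM, P, k, φ, χ, hk, hP, hχ, hc, h0,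
      ⟨F, i1, i2, π, b + b', ?_, hπ⟩, hs⟩
    rw [hcard] at hF
    have e1 : p ^ b * q * p ^ b' = q * p ^ (b + b') := by ring
    rwa [e1] at hF
  refine ⟨c, q, hGS, q * c, ?_, by rw [mul_one]⟩
  intro h3
  rcases hl.dvd_mul.1 h3 with h4 | h4
  · rcases h.1 with h5 | h5
    · exact hq (h5 ▸ h4)
    · exact h5 (hcard ▸ h4.mul_left _)
  · exact hlc h4

theorem good_aut (l p : ℕ) [hp : Fact p.Prime] (hl : l.Prime) {N : Type} [Group N] {n : ℕ}
    (e : Abelianization N ≃* Multiplicative (Fin n → ℤ)) (hN : RTFN N) {G : Type} [Group G]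
    (α : G →* MulAut N) (hα : Function.Injective α) (M : G → Matrix (Fin n) (Fin n) ℤ)
    (hM : ∀ g x, Multiplicative.toAdd (e (Abelianization.of (α g x))) =
      (M g).mulVec (Multiplicative.toAdd (e (Abelianization.of x)))) (h : Good l p M) :
    ∃ c q : ℕ, GS p c q G ∧ ∃ r : ℕ, ¬ l ∣ r ∧ q * c ∣ r * 1 := by
  refine good_data l p hl M ((abG e p).comp α) ?_ (sep_aut e p hN α hα) h
  intro g
  change (abM e (α g)).map (Int.castRingHom ℤ_[p]) = _
  rw [abM_eq e (α g) (M g) (hM g)]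
  rfl

theorem good_out (l p : ℕ) [hp : Fact p.Prime] (hl : l.Prime) (n : ℕ) {G : Type} [Group G]
    (α : G →* (MulAut (FreeGroup (Fin n)) ⧸ innS (FreeGroup (Fin n))))
    (hα : Function.Injective α) (M : G → Matrix (Fin n) (Fin n) ℤ)
    (hM : ∀ g (h : MulAut (FreeGroup (Fin n))), α g = QuotientGroup.mk h → ∀ x,
      Multiplicative.toAdd (eF n (Abelianization.of (h x))) =
        (M g).mulVec (Multiplicative.toAdd (eF n (Abelianization.of x)))) (h : Good l p M) :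
    ∃ c q : ℕ, GS p c q G ∧ ∃ r : ℕ, ¬ l ∣ r ∧ q * c ∣ r * 1 := by
  refine good_data l p hl M ((outG p (eF n)).comp α) ?_ (sep_out p n α hα) h
  intro g
  obtain ⟨h, hh⟩ := QuotientGroup.mk_surjective (α g)
  rw [MonoidHom.comp_apply, ← hh]
  change (abM (eF n) h).map (Int.castRingHom ℤ_[p]) = _
  rw [abM_eq (eF n) h (M g) (hM g h hh.symm)]
  rfl

/-- data at the prime `l` itself -/
theorem data_of_GR (l : ℕ) [hp : Fact l.Prime] {G : Type} [Group G] (c : ℕ) (hc : GR l c G)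
    (hlc : ¬ l ∣ c) : ∃ c q : ℕ, GS l c q G ∧ ∃ r : ℕ, ¬ l ∣ r ∧ q * c ∣ r * 1 := by
  obtain ⟨q, hq, h⟩ := GS.of_GR l c G hc
  refine ⟨c, q, h, q * c, ?_, by rw [mul_one]⟩
  intro h1
  rcases hp.out.dvd_mul.1 h1 with h2 | h2
  · exact hq h2
  · exact hlc h2

/-- from the class with the identity as choice of primes -/
theorem CP.of_CR {π : ℕ → ℕ} (hid : ∀ l : ℕ, l.Prime → π l = l) {G : Type} [Group G] {d : ℕ}
    (h : CR G d) : CP π G d := by
  refine ⟨h.1, fun l hl => ?_⟩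
  have : Fact l.Prime := ⟨hl⟩
  obtain ⟨c, hc, q, hq, hcq⟩ := h.2 l
  obtain ⟨q', hq', h'⟩ := GS.of_GR l c G hc
  have key : ∃ (_ : Fact l.Prime) (c q : ℕ), GS l c q G ∧
    ∃ r : ℕ, ¬ l ∣ r ∧ q * c ∣ r * d := by
    refine ⟨inferInstance, c, q', h', q' * q, ?_, ?_⟩
    · intro h1
      rcases hl.dvd_mul.1 h1 with h2 | h2
      · exact hq' h2
      · exact hq h2
    · rw [mul_assoc]
      exact mul_dvd_mul_left _ hcq
  have hπ := hid l hl
  obtain ⟨p, hp⟩ : ∃ p, p = π l := ⟨_, rfl⟩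
  rw [← hp] at hπ ⊢
  subst hπ
  exact key

end Pool.Agent.H320.PG
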