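import Pool.Agent.H320.GS.Nst

/-!
helper320: embeddings of finitely generated subrings of cyclotomic fields in the `p`-adic integers.
-/

set_option autoImplicit false

namespace Pool.Agent.H320.PG

open IntermediateField

/-- integral elements of the `p`-adic numbers -/
theorem norm_le_one_of_isIntegral {p : ℕ} [Fact p.Prime] {x : ℚ_[p]} (hx : IsIntegral ℤ x) :
    ‖x‖ ≤ 1 := by
  have h1 : IsIntegral ℤ_[p] x := hx.tower_top
  obtain ⟨y, rfl⟩ := IsIntegrallyClosed.isIntegral_iff.1 h1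
  exact y.2

theorem exists_hom {p m : ℕ} [Fact p.Prime] (hm : 0 < m) (ζ : ℂ) (hζ : IsPrimitiveRoot ζ m)
    (ξ : ℤ_[p]) (hξ : IsPrimitiveRoot ξ m) : Nonempty (ℚ⟮ζ⟯ →ₐ[ℚ] ℚ_[p]) := by
  have hint : IsIntegral ℚ ζ := (hζ.isIntegral hm).tower_top
  have : NeZero m := ⟨hm.ne'⟩
  have hmin : Polynomial.cyclotomic m ℚ = minpoly ℚ ζ :=
    Polynomial.cyclotomic_eq_minpoly_rat hζ hm
  have hξ' : IsPrimitiveRoot (ξ : ℚ_[p]) m :=
    hξ.map_of_injective (f := PadicInt.Coe.ringHom) Subtype.val_injective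
  have hroot : (ξ : ℚ_[p]) ∈ (minpoly ℚ ζ).aroots ℚ_[p] := by
    rw [Polynomial.mem_aroots]
    refine ⟨minpoly.ne_zero hint, ?_⟩
    rw [← hmin, Polynomial.aeval_def, Polynomial.eval₂_eq_eval_map, Polynomial.map_cyclotomic]
    exact hξ'.isRoot_cyclotomic hm
  exact ⟨(algHomAdjoinIntegralEquiv ℚ hint).symm ⟨(ξ : ℚ_[p]), hroot⟩⟩

/-- the embedding in the `p`-adic integers -/
theorem exists_emb {p m : ℕ} [hp : Fact p.Prime] (hm : 0 < m) (ζ : ℂ) (hζ : IsPrimitiveRoot ζ m)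
    (ξ : ℤ_[p]) (hξ : IsPrimitiveRoot ξ m) (C : Subring ℂ) (hC : ∀ x ∈ C, x ∈ ℚ⟮ζ⟯)
    (hI : ∀ x ∈ C, ∃ b : ℤ, ¬ (p : ℤ) ∣ b ∧ IsIntegral ℤ (x * b)) :
    ∃ ι : C →+* ℤ_[p], Function.Injective ι := by
  obtain ⟨j⟩ := exists_hom hm ζ hζ ξ hξ
  let k : C →+* ℚ⟮ζ⟯ :=
    { toFun := fun x => ⟨x, hC x x.2⟩
      map_one' := rfl
      map_mul' := fun _ _ => rfl
      map_zero' := rfl
      map_add' := fun _ _ => rfl }
  let f : C →+* ℚ_[p] := (j : ℚ⟮ζ⟯ →+* ℚ_[p]).comp k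
  have hnorm : ∀ x : C, ‖f x‖ ≤ 1 := by
    intro x
    obtain ⟨b, hb, hi⟩ := hI x x.2
    have h1 : IsIntegral ℤ ((k x : ℚ⟮ζ⟯) * (b : ℚ⟮ζ⟯)) := by
      have h2 : IsIntegral ℤ ((algebraMap ℚ⟮ζ⟯ ℂ) ((k x : ℚ⟮ζ⟯) * (b : ℚ⟮ζ⟯))) := by
        rw [map_mul, map_intCast]
        exact hi
      exact (isIntegral_algebraMap_iff (algebraMap ℚ⟮ζ⟯ ℂ).injective).1 h2
    have h2 : IsIntegral ℤ (f x * (b : ℚ_[p])) := by
      have h3 := h1.map (j.restrictScalars ℤ)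
      have h4 : (j.restrictScalars ℤ) ((k x : ℚ⟮ζ⟯) * (b : ℚ⟮ζ⟯)) = f x * (b : ℚ_[p]) := by
        rw [map_mul, map_intCast]
        rfl
      rwa [h4] at h3
    have h3 := norm_le_one_of_isIntegral h2
    rw [norm_mul] at h3
    have h4 : ‖(b : ℚ_[p])‖ = 1 := by
      rcases lt_or_eq_of_le (Padic.norm_int_le_one (p := p) b) with h5 | h5
      · exact absurd (Padic.norm_intCast_lt_one_iff.1 h5) hb
      · exact h5
    rwa [h4, mul_one] at h3
  refine ⟨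
    { toFun := fun x => ⟨f x, hnorm x⟩
      map_one' := Subtype.ext (map_one f)
      map_mul' := fun x y => Subtype.ext (map_mul f x y)
      map_zero' := Subtype.ext (map_zero f)
      map_add' := fun x y => Subtype.ext (map_add f x y) }, ?_⟩
  intro x y hxy
  have h1 : f x = f y := congrArg Subtype.val hxy
  have h2 : k x = k y := (j : ℚ⟮ζ⟯ →+* ℚ_[p]).injective h1
  exact Subtype.ext (congrArg (fun w : ℚ⟮ζ⟯ => (w : ℂ)) h2)

/-- the denominators of the elements of a finitely generated ring -/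
theorem exists_bound {m : ℕ} (hm : 0 < m) (ζ : ℂ) (hζ : IsPrimitiveRoot ζ m) (T : Finset ℂ)
    (hT : ∀ t ∈ T, t ∈ ℚ⟮ζ⟯) : ∃ N : ℕ, ∀ p : ℕ, p.Prime → N < p →
      ∀ x ∈ Subring.closure (T : Set ℂ), ∃ b : ℤ, ¬ (p : ℤ) ∣ b ∧ IsIntegral ℤ (x * b) := by
  classical
  have hint : IsIntegral ℚ ζ := (hζ.isIntegral hm).tower_top
  have halg : ∀ x ∈ ℚ⟮ζ⟯, IsAlgebraic ℤ x := by
    intro x hx
    have h1 : Algebra.IsAlgebraic ℚ ℚ⟮ζ⟯ := isAlgebraic_adjoin_simple hint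
    have h2 : IsAlgebraic ℚ (⟨x, hx⟩ : ℚ⟮ζ⟯) := h1.isAlgebraic _
    have h3 : IsAlgebraic ℚ x := by
      have := h2.algebraMap (A := ℂ)
      exact this
    exact (IsFractionRing.isAlgebraic_iff ℤ ℚ ℂ).2 h3
  have h1 : ∀ t : ℂ, ∃ b : ℤ, b ≠ 0 ∧ (t ∈ T → IsIntegral ℤ (t * b)) := by
    intro t
    by_cases ht : t ∈ T
    · obtain ⟨y, hy, h⟩ := (halg t (hT t ht)).exists_integral_multiple
      refine ⟨y, hy, fun _ => ?_⟩
      rw [mul_comm]
      rwa [zsmul_eq_mul] at h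
    · exact ⟨1, one_ne_zero, fun h => absurd h ht⟩
  choose b hb hbi using h1
  refine ⟨T.sup fun t => (b t).natAbs, fun p hp hN x hx => ?_⟩
  have hpz : Prime (p : ℤ) := Nat.prime_iff_prime_int.1 hp
  induction hx using Subring.closure_induction with
  | mem x hx =>
    refine ⟨b x, ?_, hbi x hx⟩
    intro h
    have h2 : p ∣ (b x).natAbs := Int.natCast_dvd.1 h
    have h3 := Nat.le_of_dvd (Int.natAbs_pos.2 (hb x)) h2
    have h4 : (b x).natAbs ≤ T.sup fun t => (b t).natAbs :=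
      Finset.le_sup (f := fun t => (b t).natAbs) hx
    omega
  | zero => exact ⟨1, fun h => hpz.not_isUnit (isUnit_of_dvd_one h), by simp; exact isIntegral_zero⟩
  | one => exact ⟨1, fun h => hpz.not_isUnit (isUnit_of_dvd_one h), by simp; exact isIntegral_one⟩
  | add x y _ _ hx hy =>
    obtain ⟨b, hb, h⟩ := hx
    obtain ⟨c, hc, h'⟩ := hy
    refine ⟨b * c, fun h => (hpz.dvd_or_dvd h).elim hb hc, ?_⟩
    have e : (x + y) * ((b * c : ℤ) : ℂ) = x * b * (c : ℤ) + y * c * (b : ℤ) := by push_cast; ring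
    rw [e]
    exact (h.mul (isIntegral_algebraMap (R := ℤ) (x := c))).add
      (h'.mul (isIntegral_algebraMap (R := ℤ) (x := b)))
  | neg x _ hx =>
    obtain ⟨b, hb, h⟩ := hx
    exact ⟨b, hb, by rw [neg_mul]; exact h.neg⟩
  | mul x y _ _ hx hy =>
    obtain ⟨b, hb, h⟩ := hx
    obtain ⟨c, hc, h'⟩ := hy
    refine ⟨b * c, fun h => (hpz.dvd_or_dvd h).elim hb hc, ?_⟩
    have e : (x * y) * ((b * c : ℤ) : ℂ) = (x * b) * (y * c) := by push_cast; ring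
    rw [e]
    exact h.mul h'

end Pool.Agent.H320.PG
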