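import Pool.Agent.H320.GS.Nst

/-! NT-A1 (helper348 for helper320). -/

set_option autoImplicit false

namespace Pool.Agent.H320.NT

namespace GLaux

/-- the part of the order of `GL_n` prime to `p` -/
def PJ (p n : ℕ) : ℕ := ∏ j ∈ Finset.range n, (p ^ (j + 1) - 1)

theorem PJ_succ (p n : ℕ) : PJ p (n + 1) = PJ p n * (p ^ (n + 1) - 1) :=
  Finset.prod_range_succ _ _

theorem card_GL (p n : ℕ) (hp : p.Prime) :
    ∃ B : ℕ, Nat.card (Matrix.GeneralLinearGroup (Fin n) (ZMod p)) = p ^ B * PJ p n := by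
  have : Fact p.Prime := ⟨hp⟩
  refine ⟨∑ i ∈ Finset.range n, i, ?_⟩
  rw [Matrix.card_GL_field, ZMod.card, Fin.prod_univ_eq_prod_range (fun i => p ^ n - p ^ i) n]
  have h1 : ∀ i ∈ Finset.range n, p ^ n - p ^ i = p ^ i * (p ^ (n - 1 - i + 1) - 1) := by
    intro i hi
    have hi' := Finset.mem_range.1 hi
    rw [Nat.mul_sub, mul_one, ← pow_add]
    congr 2
    omega
  rw [Finset.prod_congr rfl h1, Finset.prod_mul_distrib, Finset.prod_pow_eq_pow_sum,
    Finset.prod_range_reflect (fun j => p ^ (j + 1) - 1) n, PJ]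

theorem PJ_ne_zero (p n : ℕ) (hp : p.Prime) : PJ p n ≠ 0 := by
  refine Finset.prod_ne_zero_iff.2 fun j _ => ?_
  have : 1 < p ^ (j + 1) := Nat.one_lt_pow (by omega) hp.one_lt
  omega

theorem exists_r (l N X : ℕ) (hl : l.Prime) (hN : N ≠ 0) (hX : X ≠ 0)
    (h : padicValNat l N ≤ padicValNat l X) : ∃ r : ℕ, ¬ l ∣ r ∧ N ∣ r * X := by
  have : Fact l.Prime := ⟨hl⟩
  refine ⟨N / l ^ (N.factorization l), Nat.not_dvd_ordCompl hl hN, ?_⟩
  have h1 : l ^ N.factorization l ∣ X := by
    rw [Nat.factorization_def _ hl]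
    exact (padicValNat_dvd_iff_le hX).2 h
  calc N = (N / l ^ (N.factorization l)) * l ^ (N.factorization l) := by
        rw [mul_comm]; exact (Nat.ordProj_mul_ordCompl_eq_self N l).symm
    _ ∣ _ := Nat.mul_dvd_mul_left _ h1

/-- the final step -/
theorem fin_r (l p n X : ℕ) (hl : l.Prime) (hp : p.Prime) (hlp : l ≠ p) (hX : X ≠ 0)
    (h : padicValNat l (PJ p n) ≤ padicValNat l X) :
    ∃ r : ℕ, ¬ l ∣ r ∧ Nat.card (Matrix.GeneralLinearGroup (Fin n) (ZMod p)) ∣ r * X := by
  have : Fact l.Prime := ⟨hl⟩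
  have : Fact p.Prime := ⟨hp⟩
  obtain ⟨B, hB⟩ := card_GL p n hp
  rw [hB]
  refine exists_r l _ X hl (mul_ne_zero (pow_ne_zero _ hp.ne_zero) (PJ_ne_zero p n hp)) hX ?_
  rw [padicValNat.mul (pow_ne_zero _ hp.ne_zero) (PJ_ne_zero p n hp),
    padicValNat.pow, padicValNat_primes hlp, mul_zero, zero_add]
  exact h

end GLaux

open GLaux

theorem a1_lte (l p a j : ℕ) (hl : l.Prime) (hp : p.Prime) (ha : 0 < a) (h2 : l = 2 → 2 ≤ a)
    (h3 : l ^ a ∣ p - 1) (h4 : ¬ l ^ (a + 1) ∣ p - 1) (hj : j ≠ 0) :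
    padicValNat l (p ^ j - 1) = a + padicValNat l j := by
  have : Fact l.Prime := ⟨hl⟩
  have hp1 : p - 1 ≠ 0 := by have := hp.two_le; omega
  have hpj : p ^ j - 1 ≠ 0 := by
    have : 1 < p ^ j := Nat.one_lt_pow hj hp.one_lt
    omega
  have hva : padicValNat l (p - 1) = a := by
    apply le_antisymm
    · by_contra hlt
      push Not at hlt
      exact h4 ((padicValNat_dvd_iff_le hp1).2 hlt)
    · exact (padicValNat_dvd_iff_le hp1).1 h3
  have hlp1 : l ∣ p - 1 := (dvd_pow_self l ha.ne').trans h3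
  have hlp : ¬ l ∣ p := by
    intro h
    have h5 : l ∣ 1 := by
      have := Nat.dvd_sub h hlp1
      have h6 : p - (p - 1) = 1 := by have := hp.two_le; omega
      rwa [h6] at this
    exact hl.one_lt.ne' (Nat.dvd_one.1 h5)
  have hem : emultiplicity l (p ^ j - 1) = emultiplicity l (p - 1) + emultiplicity l j := by
    rcases eq_or_ne l 2 with h | h
    · subst h
      have h5 : (4 : ℤ) ∣ (p : ℤ) - 1 := by
        have h6 : 4 ∣ p - 1 := by
          have : 2 ^ 2 ∣ p - 1 := (pow_dvd_pow 2 (h2 rfl)).trans h3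
          simpa using this
        have h7 : ((p - 1 : ℕ) : ℤ) = (p : ℤ) - 1 := by
          have := hp.two_le
          push_cast [Nat.cast_sub (show 1 ≤ p by omega)]; ring
        rw [← h7]
        exact_mod_cast h6
      have h6 : ¬ (2 : ℤ) ∣ (p : ℤ) := by
        intro h; exact hlp (by exact_mod_cast h)
      have h7 := Int.two_pow_sub_pow' (x := (p : ℤ)) (y := 1) j h5 h6
      rw [one_pow] at h7
      have e1 : ((p ^ j - 1 : ℕ) : ℤ) = (p : ℤ) ^ j - 1 := by
        have : 1 ≤ p ^ j := Nat.one_le_pow _ _ hp.pos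
        push_cast [Nat.cast_sub this]; ring
      have e2 : ((p - 1 : ℕ) : ℤ) = (p : ℤ) - 1 := by
        have := hp.two_le
        push_cast [Nat.cast_sub (show 1 ≤ p by omega)]; ring
      rw [← e1, ← e2] at h7
      have e3 : ∀ n : ℕ, emultiplicity (2 : ℤ) (n : ℤ) = emultiplicity 2 n := fun n => by
        exact_mod_cast Int.natCast_emultiplicity 2 n
      rw [e3, e3, e3] at h7
      exact h7
    · have h7 := Nat.emultiplicity_pow_sub_pow (p := l) (x := p) (y := 1) hl
        (hl.odd_of_ne_two h) hlp1 hlp j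
      rwa [one_pow] at h7
  rw [← padicValNat_eq_emultiplicity hpj, ← padicValNat_eq_emultiplicity hp1,
    ← padicValNat_eq_emultiplicity hj, hva] at hem
  exact_mod_cast hem

theorem a1 : A1 := by
  intro l p a n hl hp ha h2 h3 h4
  have : Fact l.Prime := ⟨hl⟩
  have hlp : l ≠ p := by
    rintro rfl
    have hlp1 : l ∣ l - 1 := (dvd_pow_self l ha.ne').trans h3
    have := Nat.le_of_dvd (by have := hl.two_le; omega) hlp1
    have := hl.two_le
    omega
  refine fin_r l p n _ hl hp hlp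
    (mul_ne_zero (pow_ne_zero _ hl.ne_zero) n.factorial_ne_zero) (le_of_eq ?_)
  have key : ∀ n : ℕ, padicValNat l (PJ p n) = a * n + padicValNat l n.factorial := by
    intro n
    induction n with
    | zero => simp [PJ]
    | succ n ih =>
      rw [PJ_succ, padicValNat.mul (PJ_ne_zero p n hp) ?_, ih,
        a1_lte l p a (n + 1) hl hp ha h2 h3 h4 (by omega), Nat.factorial_succ,
        padicValNat.mul (by omega) n.factorial_ne_zero]
      · ring
      · have : 1 < p ^ (n + 1) := Nat.one_lt_pow (by omega) hp.one_lt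
        omega
  rw [key, padicValNat.mul (pow_ne_zero _ hl.ne_zero) n.factorial_ne_zero, padicValNat.prime_pow]

end Pool.Agent.H320.NT
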