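import Pool.Agent.H320.GS.Nst
import Pool.Agent.H320.GS.NT_A1

/-! NT-A2 (helper348 for helper320). -/

set_option autoImplicit false

namespace Pool.Agent.H320.NT

open GLaux

theorem a2 : A2 := by
  intro l p n hl hl2 hp hlp hj h2
  have : Fact l.Prime := ⟨hl⟩
  have hl1 : 0 < l - 1 := by have := hl.two_le; omega
  have hl1' : l - 1 ≠ 0 := hl1.ne'
  refine fin_r l p n _ hl hp hlp
    (mul_ne_zero (pow_ne_zero _ hl.ne_zero) (Nat.factorial_ne_zero _)) (le_of_eq ?_)
  have hnp : ¬ l ∣ p := fun h => hlp ((Nat.prime_dvd_prime_iff_eq hl hp).1 h)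
  have hpos : ∀ j : ℕ, j ≠ 0 → p ^ j - 1 ≠ 0 := by
    intro j hj0
    have : 1 < p ^ j := Nat.one_lt_pow hj0 hp.one_lt
    omega
  -- Fermat
  have hferm : l ∣ p ^ (l - 1) - 1 := by
    have h1 : (p : ℕ) ^ (l - 1) ≡ 1 [MOD l] := by
      have h3 := Nat.ModEq.pow_totient (x := p) (n := l)
        ((Nat.Prime.coprime_iff_not_dvd hl).2 hnp).symm
      rwa [Nat.totient_prime hl] at h3
    exact (Nat.modEq_iff_dvd' (Nat.one_le_pow _ _ hp.pos)).1 h1.symm
  have hv1 : padicValNat l (p ^ (l - 1) - 1) = 1 := by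
    apply le_antisymm
    · by_contra hlt
      push Not at hlt
      exact h2 ((padicValNat_dvd_iff_le (hpos _ hl1')).2 hlt)
    · exact (padicValNat_dvd_iff_le (hpos _ hl1')).1 (by simpa using hferm)
  have hlte : ∀ i : ℕ, i ≠ 0 → padicValNat l (p ^ ((l - 1) * i) - 1) = 1 + padicValNat l i := by
    intro i hi
    have hnd : ¬ l ∣ p ^ (l - 1) := fun h => hnp (hl.dvd_of_dvd_pow h)
    have h7 := Nat.emultiplicity_pow_sub_pow (p := l) (x := p ^ (l - 1)) (y := 1) hl
      (hl.odd_of_ne_two hl2) hferm hnd i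
    rw [one_pow, ← pow_mul, ← padicValNat_eq_emultiplicity (hpos _ (mul_ne_zero hl1' hi)),
      ← padicValNat_eq_emultiplicity (hpos _ hl1'), ← padicValNat_eq_emultiplicity hi, hv1] at h7
    exact_mod_cast h7
  have key : ∀ n : ℕ, padicValNat l (PJ p n) =
      n / (l - 1) + padicValNat l (n / (l - 1)).factorial := by
    intro n
    induction n with
    | zero => simp [PJ]
    | succ n ih =>
      rw [PJ_succ, padicValNat.mul (PJ_ne_zero p n hp) (hpos _ (by omega)), ih, Nat.succ_div]
      by_cases hd : l - 1 ∣ n + 1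
      · rw [if_pos hd]
        have h5 : n / (l - 1) + 1 = (n + 1) / (l - 1) := by
          rw [Nat.succ_div, if_pos hd]
        have h6 : n + 1 = (l - 1) * (n / (l - 1) + 1) := by
          rw [h5, Nat.mul_div_cancel' hd]
        have h7 : padicValNat l (p ^ (n + 1) - 1) = 1 + padicValNat l (n / (l - 1) + 1) := by
          nth_rewrite 1 [h6]
          exact hlte _ (Nat.succ_ne_zero _)
        rw [h7, Nat.factorial_succ, padicValNat.mul (Nat.succ_ne_zero _) (Nat.factorial_ne_zero _)]
        ring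
      · rw [if_neg hd, add_zero]
        have h7 : padicValNat l (p ^ (n + 1) - 1) = 0 :=
          padicValNat.eq_zero_of_not_dvd fun h => hd (hj _ h)
        rw [h7, add_zero]
  rw [key, padicValNat.mul (pow_ne_zero _ hl.ne_zero) (Nat.factorial_ne_zero _),
    padicValNat.prime_pow]

end Pool.Agent.H320.NT
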