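import Pool.Agent.H320.GS.Nst

/-!
# NT-B1: a prime `p ≡ 1` modulo `m` such that the `l`-part of `p - 1` is that of `m`
-/

set_option autoImplicit false

namespace Pool.Agent.H320.NT

theorem b1 : B1 := by
  intro m l N hm hl hlm
  have hml : m * l ≠ 0 := Nat.mul_ne_zero hm.ne' hl.ne_zero
  have hcop : (1 + m).Coprime (m * l) := by
    apply Nat.Coprime.mul_right
    · have : Nat.gcd (1 + m) m = 1 := by rw [Nat.gcd_add_self_left]; exact Nat.gcd_one_left m
      exact this
    · obtain ⟨c, rfl⟩ := hlm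
      have : Nat.gcd (1 + l * c) l = 1 := by
        rw [Nat.gcd_add_mul_left_left]
        exact Nat.gcd_one_left l
      exact this
  obtain ⟨p, hp, hpp, hmod⟩ := Nat.forall_exists_prime_gt_and_modEq (max N (1 + m)) hml hcop
  have hN : N < p := lt_of_le_of_lt (le_max_left _ _) hp
  have h1 : 1 + m ≤ p := (lt_of_le_of_lt (le_max_right _ _) hp).le
  obtain ⟨t, ht⟩ := (Nat.modEq_iff_dvd' h1).1 hmod.symm
  have e : p - 1 = m * (1 + l * t) := by
    have : p = 1 + m + m * l * t := by omega
    rw [this]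
    have e2 : 1 + m + m * l * t = 1 + m * (1 + l * t) := by ring
    rw [e2, Nat.add_sub_cancel_left]
  refine ⟨p, hN, hpp, ⟨_, e⟩, ?_⟩
  intro h
  rw [e] at h
  have hc : Nat.Coprime (l ^ (m.factorization l + 1)) (1 + l * t) := by
    apply Nat.Coprime.pow_left
    have : Nat.gcd l (1 + l * t) = 1 := by
      rw [Nat.gcd_comm, Nat.gcd_add_mul_left_left]
      exact Nat.gcd_one_left l
    exact this
  exact Nat.pow_succ_factorization_not_dvd hm.ne' hl (hc.dvd_of_dvd_mul_right h)

end Pool.Agent.H320.NT
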