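import Pool.Agent.H320.GS.Nst

/-!
# NT-B2: a prime `p ≡ 1` modulo `m` which generates the units modulo `l ^ 2`
-/

set_option autoImplicit false

namespace Pool.Agent.H320.NT

/-- a power of `p` which is one modulo `k` -/
theorem pow_eq_one_iff {k p e : ℕ} (hp : 0 < p) (h : k ∣ p ^ e - 1) : (p : ZMod k) ^ e = 1 := by
  have h1 : ((p ^ e - 1 : ℕ) : ZMod k) = 0 := (ZMod.natCast_eq_zero_iff _ _).2 h
  rw [Nat.cast_sub (Nat.one_le_pow _ _ hp), Nat.cast_pow, Nat.cast_one] at h1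
  exact sub_eq_zero.1 h1

theorem b2 : B2 := by
  intro m l N hm hl hl2 hlm
  have : Fact l.Prime := ⟨hl⟩
  have hl1 : 1 < l := hl.one_lt
  have hn : NeZero (l ^ 2) := ⟨pow_ne_zero 2 hl.ne_zero⟩
  have hcyc : IsCyclic (ZMod (l ^ 2))ˣ := ZMod.isCyclic_units_of_prime_pow l hl hl2 2
  obtain ⟨g, hg⟩ := IsCyclic.exists_generator (α := (ZMod (l ^ 2))ˣ)
  have hord : orderOf g = l * (l - 1) := by
    rw [orderOf_eq_card_of_forall_mem_zpowers hg, Nat.card_eq_fintype_card, ZMod.card_units_eq_totient,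
      Nat.totient_prime_pow hl (by norm_num)]
    norm_num
  have hcop : Nat.Coprime m (l ^ 2) :=
    Nat.Coprime.pow_right 2 ((Nat.Prime.coprime_iff_not_dvd hl).2 hlm).symm
  set G : ℕ := (g : ZMod (l ^ 2)).val with hG
  have hGc : G.Coprime (l ^ 2) := ZMod.val_coe_unit_coprime g
  obtain ⟨k, hk1, hk2⟩ := Nat.chineseRemainder hcop 1 G
  have hkc : k.Coprime (m * l ^ 2) := by
    apply Nat.Coprime.mul_right
    · have : Nat.gcd k m = Nat.gcd 1 m := hk1.gcd_eq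
      rw [Nat.gcd_one_left] at this
      exact this
    · have : Nat.gcd k (l ^ 2) = Nat.gcd G (l ^ 2) := hk2.gcd_eq
      exact this.trans hGc
  have hml : m * l ^ 2 ≠ 0 := Nat.mul_ne_zero hm.ne' (pow_ne_zero 2 hl.ne_zero)
  obtain ⟨p, hp, hpp, hmod⟩ := Nat.forall_exists_prime_gt_and_modEq (max N l) hml hkc
  have hN : N < p := lt_of_le_of_lt (le_max_left _ _) hp
  have hlp : l < p := lt_of_le_of_lt (le_max_right _ _) hp
  have hpm : p ≡ 1 [MOD m] := (hmod.of_dvd (Dvd.intro _ rfl)).trans hk1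
  have hpl : p ≡ G [MOD l ^ 2] := (hmod.of_dvd (Dvd.intro_left _ rfl)).trans hk2
  have hpg : (p : ZMod (l ^ 2)) = (g : ZMod (l ^ 2)) := by
    have := (ZMod.natCast_eq_natCast_iff _ _ _).2 hpl
    rw [this, hG, ZMod.natCast_zmod_val]
  have hpow : ∀ e : ℕ, (p : ZMod (l ^ 2)) ^ e = 1 → l * (l - 1) ∣ e := by
    intro e he
    rw [← hord]
    apply orderOf_dvd_of_pow_eq_one
    apply Units.ext
    rw [Units.val_pow_eq_pow_val, ← hpg, he, Units.val_one]
  refine ⟨p, hN, hpp, (Nat.modEq_iff_dvd' hpp.one_lt.le).1 hpm.symm, hlp.ne, ?_, ?_⟩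
  · intro j hj
    have h1 : (p : ZMod l) ^ j = 1 := pow_eq_one_iff hpp.pos hj
    have h2 : ((l : ℕ) : ℤ) ∣ (p : ℤ) ^ j - 1 := by
      rw [← ZMod.intCast_zmod_eq_zero_iff_dvd]
      push_cast
      rw [h1, sub_self]
    have h3 := dvd_sub_pow_of_dvd_sub (R := ℤ) (p := l) (a := (p : ℤ) ^ j) (b := 1) h2 1
    rw [pow_one, one_pow, ← pow_mul] at h3
    have h4 : (p : ZMod (l ^ 2)) ^ (j * l) = 1 := by
      have h5 : (((p : ℤ) ^ (j * l) - 1 : ℤ) : ZMod (l ^ 2)) = 0 := by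
        rw [ZMod.intCast_zmod_eq_zero_iff_dvd]
        push_cast
        exact h3
      push_cast at h5
      exact sub_eq_zero.1 h5
    have h6 := hpow _ h4
    rw [mul_comm j l] at h6
    exact Nat.dvd_of_mul_dvd_mul_left hl.pos h6
  · intro h
    have h1 : (p : ZMod (l ^ 2)) ^ (l - 1) = 1 := pow_eq_one_iff hpp.pos h
    have h2 := Nat.le_of_dvd (by omega) (hpow _ h1)
    have h3 : 1 * (l - 1) < l * (l - 1) := Nat.mul_lt_mul_of_pos_right hl1 (by omega)
    omega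

end Pool.Agent.H320.NT
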