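import Pool.Agent.H320.GS.Nst

/-! NT-C (helper348 for helper320). -/

set_option autoImplicit false

namespace Pool.Agent.H320.NT

theorem c1 : C1 := by
  intro m p hpf hm hmp
  have hp : p.Prime := hpf.out
  -- a unit of order m
  obtain ⟨a, ha⟩ : ∃ a : (ZMod p)ˣ, orderOf a = m := by
    obtain ⟨g, hg⟩ := IsCyclic.exists_generator (α := (ZMod p)ˣ)
    have hg1 : orderOf g = p - 1 := by
      rw [orderOf_eq_card_of_forall_mem_zpowers hg, Nat.card_eq_fintype_card,
        ZMod.card_units_eq_totient, Nat.totient_prime hp]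
    obtain ⟨k, hk⟩ := hmp
    have hk0 : k ≠ 0 := by
      rintro rfl
      have := hp.two_le
      omega
    refine ⟨g ^ k, ?_⟩
    rw [orderOf_pow_of_dvd hk0 ⟨m, by rw [hg1, hk, mul_comm]⟩, hg1, hk,
      Nat.mul_div_cancel _ (Nat.pos_of_ne_zero hk0)]
  have hpm : ¬ p ∣ m := by
    intro h
    have h1 := Nat.le_of_dvd hm h
    have h2 := Nat.le_of_dvd (by have := hp.two_le; omega) hmp
    have := hp.two_le
    omega
  have ham : (a : ZMod p) ^ m = 1 := by
    rw [← Units.val_pow_eq_pow_val, ← ha, pow_orderOf_eq_one, Units.val_one]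
  obtain ⟨a0, ha0⟩ := (ZMod.ringHom_surjective (PadicInt.toZMod (p := p))) (a : ZMod p)
  have hna : PadicInt.toZMod a0 ≠ 0 := by
    rw [ha0]; exact a.ne_zero
  -- Hensel
  have hnorm : ‖(Polynomial.X ^ m - 1 : Polynomial ℤ_[p]).aeval a0‖ <
      ‖(Polynomial.derivative (Polynomial.X ^ m - 1 : Polynomial ℤ_[p])).aeval a0‖ ^ 2 := by
    have h1 : ‖(Polynomial.derivative (Polynomial.X ^ m - 1 : Polynomial ℤ_[p])).aeval a0‖ = 1 := by
      have e1 : (Polynomial.derivative (Polynomial.X ^ m - 1 : Polynomial ℤ_[p])).aeval a0 =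
          (m : ℤ_[p]) * a0 ^ (m - 1) := by
        simp [Polynomial.derivative_X_pow]
      rw [e1, norm_mul, norm_pow]
      have e2 : ‖(m : ℤ_[p])‖ = 1 := by
        rw [← PadicInt.isUnit_iff]
        by_contra hnu
        have : (p : ℕ) ∣ m := by
          have h3 := (PadicInt.norm_int_lt_one_iff_dvd (p := p) (m : ℤ)).1 (by
            have h4 := PadicInt.mem_nonunits.1 (show ((m : ℤ) : ℤ_[p]) ∈ nonunits ℤ_[p] by
              simpa [mem_nonunits_iff] using hnu)
            exact h4)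
          exact_mod_cast h3
        exact hpm this
      have e3 : ‖a0‖ = 1 := by
        rw [← PadicInt.isUnit_iff]
        by_contra hnu
        apply hna
        have h4 : a0 ∈ IsLocalRing.maximalIdeal ℤ_[p] := (IsLocalRing.mem_maximalIdeal _).2 hnu
        rw [← PadicInt.ker_toZMod] at h4
        exact h4
      rw [e2, e3, one_pow, mul_one]
    rw [h1, one_pow]
    have e4 : (Polynomial.X ^ m - 1 : Polynomial ℤ_[p]).aeval a0 = a0 ^ m - 1 := by simp
    rw [e4]
    have h5 : PadicInt.toZMod (a0 ^ m - 1) = 0 := by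
      rw [map_sub, map_pow, ha0, ham, map_one, sub_self]
    have h6 : a0 ^ m - 1 ∈ IsLocalRing.maximalIdeal ℤ_[p] := by
      rw [← PadicInt.ker_toZMod]; exact h5
    exact PadicInt.mem_nonunits.1 h6
  obtain ⟨ξ, h1, h2, h3, h4⟩ := hensels_lemma hnorm
  have hξ : ξ ^ m = 1 := by
    have : (Polynomial.X ^ m - 1 : Polynomial ℤ_[p]).aeval ξ = ξ ^ m - 1 := by simp
    rw [this] at h1
    exact sub_eq_zero.1 h1
  refine ⟨ξ, hξ, ?_⟩
  intro d hd
  have h5 : PadicInt.toZMod ξ = (a : ZMod p) := by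
    have h6 : ‖ξ - a0‖ < 1 := lt_of_lt_of_le h2 (PadicInt.norm_le_one _)
    have h7 : ξ - a0 ∈ IsLocalRing.maximalIdeal ℤ_[p] := PadicInt.mem_nonunits.2 h6
    rw [← PadicInt.ker_toZMod, RingHom.mem_ker, map_sub, ha0] at h7
    exact sub_eq_zero.1 h7
  have h6 : (a : ZMod p) ^ d = 1 := by
    rw [← h5, ← map_pow, hd, map_one]
  rw [← ha]
  apply orderOf_dvd_of_pow_eq_one
  apply Units.ext
  rw [Units.val_pow_eq_pow_val, h6, Units.val_one]

end Pool.Agent.H320.NT
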