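import Pool.Agent.H320.GS.Uni
import Pool.Agent.H320.GS.Emb
import Pool.Agent.H320.GS.NT_A1
import Pool.Agent.H320.GS.NT_A2
import Pool.Agent.H320.GS.NT_B1
import Pool.Agent.H320.GS.NT_B2
import Pool.Agent.H320.GS.NT_C1
import Pool.Agent.H320.GS.Cond
import Pool.Agent.H371.SC.T10

/-!
helper320: general linear groups over augmented algebras over finitely generated subrings of
cyclotomic fields.
-/

set_option autoImplicit false

namespace Pool.Agent.H320.PG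

open Pool.Agent.H371.SA Pool.Agent.H371.SB Pool.Agent.H371.SC
open Pool.Agent.H371.SB.S0x
open Pool.Agent.H320.NT

theorem ex_primes : Ex := fun m l N hm hl h2 => exists_PP a1 a2 b1 b2 m l N hm hl h2

/-- the condition on the ring of coefficients -/
def CoefR (m : ℕ) (ζ : ℂ) (C : Subring ℂ) : Prop :=
  (∀ x ∈ C, x ∈ IntermediateField.adjoin ℚ ({ζ} : Set ℂ)) ∧
    (4 ∣ m ∨ (m ∣ 2 ∧ ∀ x ∈ C, ∃ a b : ℤ, Odd b ∧ x * b = a))

/-- `R` is an augmented algebra over a finitely generated ring of coefficients -/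
def Aug (m : ℕ) (ζ : ℂ) (R : Type) [Ring R] : Prop :=
  ∃ (C : Subring ℂ) (_ : Algebra C R) (ε : R →ₐ[C] C),
    (∃ T : Finset ℂ, C = Subring.closure (T : Set ℂ)) ∧ CoefR m ζ C ∧ Res ε

/-- the prime to `p` part -/
theorem GS.part {p : ℕ} [hp : Fact p.Prime] {c q : ℕ} {G : Type} [Group G] (hq : q ≠ 0)
    (h : GS p c q G) : ∃ q' : ℕ, ¬ p ∣ q' ∧ q' ∣ q ∧ GS p c q' G := by
  obtain ⟨b, q', hq', hcard⟩ := Nat.exists_eq_pow_mul_and_not_dvd hq p hp.out.ne_one
  refine ⟨q', hq', ⟨p ^ b, by rw [hcard, mul_comm]⟩, ?_⟩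
  obtain ⟨A, iR, iA, iF, iM, P, k, φ, χ, hk, hP, hχ, hc, h0, ⟨F, i1, i2, π, b', hF, hπ⟩, hs⟩ := h
  refine ⟨A, iR, iA, iF, iM, P, k, φ, χ, hk, hP, hχ, hc, h0,
    ⟨F, i1, i2, π, b + b', ?_, hπ⟩, hs⟩
  rw [hcard] at hF
  have e1 : p ^ b * q' * p ^ b' = q' * p ^ (b + b') := by ring
  rwa [e1] at hF

theorem cc_two (n : ℕ) (m : ℕ) (hm : m ∣ 2) : cc 2 n = sch 2 m n := by
  rw [cc, sch]
  have h1 : n / (2 - 1) = n := Nat.div_one n
  rw [h1]
  split_ifs with h
  · have h2 : m = 2 := Nat.dvd_antisymm hm h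
    subst h2
    have h3 : (2 : ℕ).factorization 2 = 1 := Nat.Prime.factorization_self Nat.prime_two
    rw [h3, one_mul]
  · rfl

/-- **the base case** -/
theorem base {m : ℕ} (hm : 0 < m) (ζ : ℂ) (hζ : IsPrimitiveRoot ζ m) (n d : ℕ)
    (hd : ∀ l : ℕ, l.Prime → ∃ r : ℕ, ¬ l ∣ r ∧ sch l m n ∣ r * d) {R : Type} [Ring R] (hR : Aug m ζ R)
    {H : Type} [Group H] (f : H →* (Matrix (Fin n) (Fin n) R)ˣ) (hf : Function.Injective f) :
    ∃ N : ℕ, ∀ l : ℕ, l.Prime →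
      (Spc m l → D l 2 H d) ∧ (¬ Spc m l → ∀ p, N < p → PP m l p → D l p H d) := by
  obtain ⟨C, iA, ε, ⟨T, hT⟩, hC, hε⟩ := hR
  have hTC : ∀ t ∈ T, t ∈ IntermediateField.adjoin ℚ ({ζ} : Set ℂ) := fun t ht =>
    hC.1 t (by rw [hT]; exact Subring.subset_closure ht)
  obtain ⟨N, hN⟩ := exists_bound hm ζ hζ T hTC
  refine ⟨max N (n + 1), fun l hl => ⟨fun hs => ?_, fun hs p hp hpp => ?_⟩⟩
  · -- the prime two
    have h2 : m ∣ 2 ∧ ∀ x ∈ C, ∃ a b : ℤ, Odd b ∧ x * b = a := by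
      rcases hC.2 with h | h
      · exact absurd h hs.2
      · exact h
    obtain ⟨h2, hodd⟩ := h2
    have hl2 : l = 2 := hs.1
    obtain ⟨ξ, hξ⟩ : ∃ ξ : ℤ_[2], IsPrimitiveRoot ξ m := by
      rcases (Nat.dvd_prime Nat.prime_two).1 h2 with rfl | rfl
      · exact ⟨1, IsPrimitiveRoot.one⟩
      · exact ⟨-1, IsPrimitiveRoot.neg_one 0 two_ne_zero.symm⟩
    obtain ⟨ι, hι⟩ := exists_emb hm ζ hζ ξ hξ C hC.1 (fun x hx => by
      obtain ⟨a, b, hb, hab⟩ := hodd x hx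
      refine ⟨b, ?_, ?_⟩
      · intro h
        have h3 : (2 : ℤ) ∣ b := by exact_mod_cast h
        rcases hb with ⟨k, hk⟩
        omega
      · rw [hab]
        exact isIntegral_algebraMap (R := ℤ) (x := a))
    have h1 : GS 2 (cc 2 n) (Nat.card (Matrix.GeneralLinearGroup (Fin n) (ZMod 2))) H :=
      (GS.gl 2 n C R ε hε ι hι).sub 2 _ _ _ _ f hf
    obtain ⟨q, hq, -, h3⟩ := h1.part Nat.card_pos.ne'
    obtain ⟨r, hr, h4⟩ := hd l hl
    refine ⟨inferInstance, cc 2 n, q, h3, q * r, ?_, ?_⟩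
    · intro h5
      rcases hl.dvd_mul.1 h5 with h6 | h6
      · rw [hl2] at h6
        exact hq h6
      · exact hr h6
    · rw [cc_two n m h2, ← hl2, mul_assoc]
      exact mul_dvd_mul_left _ h4
  · have hpN : N < p := lt_of_le_of_lt (le_max_left _ _) hp
    have hpn : n + 1 < p := lt_of_le_of_lt (le_max_right _ _) hp
    have : Fact p.Prime := ⟨hpp.1⟩
    obtain ⟨ξ, hξ⟩ := c1 m p hm hpp.2.1
    obtain ⟨ι, hι⟩ := exists_emb hm ζ hζ ξ hξ C hC.1 (fun x hx => hN p hpp.1 hpN x (hT ▸ hx))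
    have h1 : GS p (cc p n) (Nat.card (Matrix.GeneralLinearGroup (Fin n) (ZMod p))) H :=
      (GS.gl p n C R ε hε ι hι).sub p _ _ _ _ f hf
    obtain ⟨r, hr, h3⟩ := hpp.2.2 n
    obtain ⟨r', hr', h4⟩ := hd l hl
    refine ⟨inferInstance, cc p n, _, h1, r * r', ?_, ?_⟩
    · intro h5
      rcases hl.dvd_mul.1 h5 with h6 | h6
      · exact hr h6
      · exact hr' h6
    · rw [cc_one_of_lt hpn, mul_one, mul_assoc]
      exact h3.trans (mul_dvd_mul_left _ h4)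

/-- the class `U` from local embeddings -/
theorem U.of_loc {m : ℕ} (hm : 0 < m) (ζ : ℂ) (hζ : IsPrimitiveRoot ζ m) (n d : ℕ) (hd0 : 0 < d)
    (hd : ∀ l : ℕ, l.Prime → ∃ r : ℕ, ¬ l ∣ r ∧ sch l m n ∣ r * d) {G : Type} [Group G]
    (hG : ∀ H : Subgroup G, H.FG → ∃ (R : Type) (_ : Ring R), Aug m ζ R ∧
      ∃ f : H →* (Matrix (Fin n) (Fin n) R)ˣ, Function.Injective f) : U m G d := by
  refine ⟨hd0, fun H hH => ?_⟩
  obtain ⟨R, i1, hR, f, hf⟩ := hG H hH
  exact base hm ζ hζ n d hd hR f hf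

theorem exists_of_factorization {l a d : ℕ} (hl : l.Prime) (ha : a ≠ 0) (hd : d ≠ 0)
    (h : a.factorization l ≤ d.factorization l) : ∃ r : ℕ, ¬ l ∣ r ∧ a ∣ r * d := by
  refine ⟨a / l ^ a.factorization l, Nat.not_dvd_ordCompl hl ha, ?_⟩
  obtain ⟨e, he⟩ := (hl.pow_dvd_iff_le_factorization hd).2 h
  refine ⟨e, ?_⟩
  conv_lhs => rw [he]
  rw [← mul_assoc, mul_comm (a / _), Nat.ordProj_mul_ordCompl_eq_self]

theorem sch_ne_zero {l m n : ℕ} (hl : l.Prime) : sch l m n ≠ 0 := by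
  rw [sch]
  split_ifs
  · exact mul_ne_zero (pow_ne_zero _ hl.ne_zero) (Nat.factorial_ne_zero _)
  · exact mul_ne_zero (pow_ne_zero _ hl.ne_zero) (Nat.factorial_ne_zero _)

/-- finitely generated subgroups of `GL_n (S)` -/
theorem lift_sub {S S' : Type} [Ring S] [Ring S'] (i : S' →+* S) (hi : Function.Injective i)
    (n : ℕ) (T : Finset (Matrix (Fin n) (Fin n) S)ˣ)
    (hT : ∀ t ∈ T, (∀ a b, (t : Matrix (Fin n) (Fin n) S) a b ∈ i.range) ∧
      ∀ a b, ((t⁻¹ : (Matrix (Fin n) (Fin n) S)ˣ) : Matrix (Fin n) (Fin n) S) a b ∈ i.range) :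
    ∃ f : Subgroup.closure (T : Set (Matrix (Fin n) (Fin n) S)ˣ) →*
      (Matrix (Fin n) (Fin n) S')ˣ, Function.Injective f := by
  let φ : (Matrix (Fin n) (Fin n) S')ˣ →* (Matrix (Fin n) (Fin n) S)ˣ :=
    Units.map ((RingHom.mapMatrix i : Matrix (Fin n) (Fin n) S' →+* Matrix (Fin n) (Fin n) S) :
      Matrix (Fin n) (Fin n) S' →* Matrix (Fin n) (Fin n) S)
  have hinjM : Function.Injective (RingHom.mapMatrix i :
      Matrix (Fin n) (Fin n) S' →+* Matrix (Fin n) (Fin n) S) := by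
    intro A B hAB
    ext a b
    exact hi (congrFun (congrFun hAB a) b)
  have hφ : Function.Injective φ := by
    intro u v huv
    exact Units.ext (hinjM (congrArg (fun w : (Matrix (Fin n) (Fin n) S)ˣ =>
      (w : Matrix (Fin n) (Fin n) S)) huv))
  have hle : Subgroup.closure (T : Set (Matrix (Fin n) (Fin n) S)ˣ) ≤ φ.range := by
    rw [Subgroup.closure_le]
    intro t ht
    obtain ⟨h1, h2⟩ := hT t ht
    choose A hA using h1
    choose B hB using h2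
    have hA' : (RingHom.mapMatrix i : Matrix (Fin n) (Fin n) S' →+* _) (Matrix.of A) =
        (t : Matrix (Fin n) (Fin n) S) := by
      ext a b
      exact hA a b
    have hB' : (RingHom.mapMatrix i : Matrix (Fin n) (Fin n) S' →+* _) (Matrix.of B) =
        ((t⁻¹ : (Matrix (Fin n) (Fin n) S)ˣ) : Matrix (Fin n) (Fin n) S) := by
      ext a b
      exact hB a b
    refine ⟨⟨Matrix.of A, Matrix.of B, hinjM ?_, hinjM ?_⟩, Units.ext hA'⟩
    · rw [map_mul, hA', hB', Units.mul_inv, map_one]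
    · rw [map_mul, hA', hB', Units.inv_mul, map_one]
  exact ⟨((MonoidHom.ofInjective hφ).symm.toMonoidHom).comp (Subgroup.inclusion hle),
    (MonoidHom.ofInjective hφ).symm.injective.comp (Subgroup.inclusion_injective hle)⟩

/-- all finitely generated subrings embed in augmented algebras -/
def LocAug (m : ℕ) (ζ : ℂ) (S : Type) [Ring S] : Prop :=
  ∀ T : Finset S, ∃ (R : Type) (_ : Ring R), Aug m ζ R ∧
    ∃ i : Subring.closure (T : Set S) →+* R, Function.Injective i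

theorem emb_of_locAug {m : ℕ} {ζ : ℂ} {S : Type} [Ring S] (hS : LocAug m ζ S) (n : ℕ)
    (H : Subgroup (Matrix (Fin n) (Fin n) S)ˣ) (hH : H.FG) :
    ∃ (R : Type) (_ : Ring R), Aug m ζ R ∧
      ∃ f : H →* (Matrix (Fin n) (Fin n) R)ˣ, Function.Injective f := by
  classical
  obtain ⟨T, rfl⟩ := hH
  let T' : Finset S := T.biUnion fun t => Finset.univ.biUnion fun a : Fin n =>
    Finset.univ.biUnion fun b : Fin n =>
      {(t : Matrix (Fin n) (Fin n) S) a b,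
        ((t⁻¹ : (Matrix (Fin n) (Fin n) S)ˣ) : Matrix (Fin n) (Fin n) S) a b}
  obtain ⟨R, i1, hR, i, hi⟩ := hS T'
  refine ⟨R, i1, hR, ?_⟩
  have hmem : ∀ t ∈ T, ∀ a b, (t : Matrix (Fin n) (Fin n) S) a b ∈ T' ∧
      ((t⁻¹ : (Matrix (Fin n) (Fin n) S)ˣ) : Matrix (Fin n) (Fin n) S) a b ∈ T' := by
    intro t ht a b
    constructor
    · exact Finset.mem_biUnion.2 ⟨t, ht, Finset.mem_biUnion.2 ⟨a, Finset.mem_univ _,
        Finset.mem_biUnion.2 ⟨b, Finset.mem_univ _, by simp⟩⟩⟩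
    · exact Finset.mem_biUnion.2 ⟨t, ht, Finset.mem_biUnion.2 ⟨a, Finset.mem_univ _,
        Finset.mem_biUnion.2 ⟨b, Finset.mem_univ _, by simp⟩⟩⟩
  obtain ⟨f, hf⟩ := lift_sub (Subring.closure (T' : Set S)).subtype Subtype.val_injective n T
    (fun t ht => ⟨fun a b => ⟨⟨_, Subring.subset_closure (hmem t ht a b).1⟩, rfl⟩,
      fun a b => ⟨⟨_, Subring.subset_closure (hmem t ht a b).2⟩, rfl⟩⟩)
  let φ : (Matrix (Fin n) (Fin n) (Subring.closure (T' : Set S)))ˣ →*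
      (Matrix (Fin n) (Fin n) R)ˣ :=
    Units.map ((RingHom.mapMatrix i : Matrix (Fin n) (Fin n) (Subring.closure (T' : Set S)) →+*
      Matrix (Fin n) (Fin n) R) : _ →* Matrix (Fin n) (Fin n) R)
  have hφ : Function.Injective φ := by
    intro u v huv
    apply Units.ext
    ext a b
    have h1 := congrArg (fun w : (Matrix (Fin n) (Fin n) R)ˣ =>
      (w : Matrix (Fin n) (Fin n) R) a b) huv
    exact congrArg Subtype.val (hi h1)
  exact ⟨φ.comp f, by rw [MonoidHom.coe_comp]; exact hφ.comp hf⟩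

/-- the finite subgroups of `GL_n (S)` -/
theorem sch_dvd {m : ℕ} (hm : 0 < m) (ζ : ℂ) (hζ : IsPrimitiveRoot ζ m) (S : Type) [Ring S]
    (j : Cy ζ →+* S) (hj : Function.Injective j) (n d : ℕ)
    (hd : ∀ H : Subgroup (Matrix (Fin n) (Fin n) S)ˣ, Finite H → Nat.card H ∣ d) (l : ℕ)
    (hl : l.Prime) : sch l m n ∣ d := by
  have hle : ∀ H : Subgroup (Matrix (Fin n) (Fin n) (Cy ζ))ˣ, Finite H → Nat.card H ∣ d := by
    intro H hH
    rw [← card_units_map n j hj H]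
    apply hd
    exact Set.Finite.image _ (Set.toFinite (H : Set (Matrix (Fin n) (Fin n) (Cy ζ))ˣ))
  rw [sch]
  split_ifs with h
  · set a := m.factorization l with ha
    have hdv : l ^ a ∣ m := Nat.ordProj_dvd m l
    obtain ⟨m', hm'⟩ := hdv
    let z : Cy ζ := ⟨ζ, Algebra.subset_adjoin (Set.mem_singleton ζ)⟩
    have hz : IsPrimitiveRoot z m := by
      refine IsPrimitiveRoot.of_map_of_injective (f := (Algebra.adjoin ℤ ({ζ} : Set ℂ)).val)
        hζ Subtype.val_injective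
    have hξ : IsPrimitiveRoot (z ^ m') (l ^ a) := by
      refine hz.pow hm ?_
      rw [hm', mul_comm]
    obtain ⟨H, hH, hc⟩ := exists_monomial (Cy ζ) (l ^ a) (pow_pos hl.pos a) _ hξ n
    have h1 := hle H hH
    rw [hc, ← pow_mul] at h1
    exact h1
  · obtain ⟨H, hH, hc⟩ := exists_finite_subgroup l n (n / (l - 1)) hl.two_le
      (Nat.div_mul_le_self _ _)
    rw [← hc, ← card_units_map n (Int.castRingHom (Cy ζ)) (RingHom.injective_int _) H]
    apply hle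
    exact Set.Finite.image _ (Set.toFinite (H : Set (Matrix (Fin n) (Fin n) ℤ)ˣ))

end Pool.Agent.H320.PG
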