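import Mathlib

/-!
helper320: statements on finitely generated rings of rational functions.
-/

set_option autoImplicit false

namespace Pool.Agent.H320.NT

/-- every finitely generated ring of rational functions over `C` embeds in a power series ring
over a finitely generated subring of the field `F` -/
def F2 : Prop := ∀ (C : Subring ℂ) (F : Subfield ℂ) (_ : ∀ x ∈ C, x ∈ F) (k : ℕ)
  (T : Finset (FractionRing (MvPolynomial (Fin k) C))),
  ∃ T₀ : Finset ℂ, (∀ t ∈ T₀, t ∈ F) ∧
    ∃ i : Subring.closure (T : Set (FractionRing (MvPolynomial (Fin k) C))) →+*
      MvPowerSeries (Fin k) (Subring.closure (T₀ : Set ℂ)), Function.Injective i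

end Pool.Agent.H320.NT
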