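import Pool.Agent.H320.GS.Loc
import Pool.Agent.H320.GS.Grp
import Pool.Agent.H320.GS.Fst
import Pool.Agent.H371.SC.T11

/-!
helper320: rings all of whose finitely generated subrings embed in augmented algebras.
-/

set_option autoImplicit false

namespace Pool.Agent.H320.PG

open Pool.Agent.H371.SA Pool.Agent.H371.SB Pool.Agent.H371.SC
open Pool.Agent.H320.NT

theorem CoefR.mono {m : ℕ} {ζ : ℂ} {C C' : Subring ℂ} (h : C' ≤ C) (hC : CoefR m ζ C) :
    CoefR m ζ C' :=
  ⟨fun x hx => hC.1 x (h hx), hC.2.imp_right fun h' => ⟨h'.1, fun x hx => h'.2 x (h hx)⟩⟩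

theorem rtfn_sub {N : Type} [Group N] (hN : RTFN N) (N' : Subgroup N) : RTFN N' := by
  intro x hx
  obtain ⟨L, hL, hxL, hnil, htf⟩ := hN (x : N) (fun h => hx (Subtype.ext h))
  let f : N' ⧸ (L.comap N'.subtype) →* N ⧸ L :=
    QuotientGroup.map (L.comap N'.subtype) L N'.subtype le_rfl
  have hf : Function.Injective f := by
    rw [injective_iff_map_eq_one]
    intro y hy
    obtain ⟨z, rfl⟩ := QuotientGroup.mk_surjective y
    have h1 : ((z : N) : N ⧸ L) = 1 := hy
    rw [QuotientGroup.eq_one_iff] at h1 ⊢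
    exact h1
  refine ⟨L.comap N'.subtype, inferInstance, hxL, ?_, ?_⟩
  · have h1 : Group.IsNilpotent f.range := inferInstance
    exact Group.nilpotent_of_mulEquiv (MonoidHom.ofInjective hf).symm
  · intro y k hk hy
    apply hf
    rw [map_one]
    exact htf (f y) k hk (by rw [← map_pow, hy, map_one])

theorem locAug_group {m : ℕ} {ζ : ℂ} (C : Subring ℂ) (hC : CoefR m ζ C) {N S : Type} [Group N]
    (hN : RTFN N) [Ring S] (i : S →+* MonoidAlgebra C N) (hi : Function.Injective i) :
    LocAug m ζ S := by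
  intro T
  obtain ⟨T₀, N', h1, h2, i', hi'⟩ := grp_core C i hi T
  have hFG : Group.FG N' := (Group.fg_iff_subgroup_fg N').2 h2
  have hle : Subring.closure (T₀ : Set ℂ) ≤ C := (Subring.closure_le).2 h1
  exact ⟨MonoidAlgebra (Subring.closure (T₀ : Set ℂ)) N', inferInstance,
    ⟨Subring.closure (T₀ : Set ℂ), inferInstance, _, ⟨T₀, rfl⟩, hC.mono hle,
      res_group_ring (Subring.closure (T₀ : Set ℂ)) N' (rtfn_sub hN N')⟩, i', hi'⟩

theorem locAug_frac (f2 : F2) {m : ℕ} (h4 : 4 ∣ m) {ζ : ℂ} (C : Subring ℂ)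
    (hC : ∀ x ∈ C, x ∈ IntermediateField.adjoin ℚ ({ζ} : Set ℂ)) (k : ℕ) {S : Type} [Ring S]
    (i : S →+* FractionRing (MvPolynomial (Fin k) C)) (hi : Function.Injective i) :
    LocAug m ζ S := by
  classical
  intro T
  obtain ⟨T₀, h1, i', hi'⟩ := f2 C (IntermediateField.adjoin ℚ ({ζ} : Set ℂ)).toSubfield hC k
    (T.image i)
  have hle : Subring.closure (T : Set S) ≤
      (Subring.closure ((T.image i : Finset _) : Set (FractionRing (MvPolynomial (Fin k) C)))).comap
        i := by
    rw [Subring.closure_le]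
    intro t ht
    exact Subring.subset_closure (Finset.mem_coe.2 (Finset.mem_image_of_mem i ht))
  let j : Subring.closure (T : Set S) →+*
      Subring.closure ((T.image i : Finset _) : Set (FractionRing (MvPolynomial (Fin k) C))) :=
    (i.comp (Subring.closure (T : Set S)).subtype).codRestrict _ (fun x => hle x.2)
  have hj : Function.Injective j := by
    intro x y hxy
    have h2 : i x = i y := congrArg Subtype.val hxy
    exact Subtype.ext (hi h2)
  let C' : Subring ℂ := Subring.closure (T₀ : Set ℂ)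
  have hC' : CoefR m ζ C' := by
    refine ⟨fun x hx => ?_, Or.inl h4⟩
    have h3 : C' ≤ (IntermediateField.adjoin ℚ ({ζ} : Set ℂ)).toSubfield.toSubring :=
      (Subring.closure_le).2 h1
    exact h3 hx
  let ε : MvPowerSeries (Fin k) C' →ₐ[C'] C' :=
    { (MvPowerSeries.constantCoeff : MvPowerSeries (Fin k) C' →+* C') with
      commutes' := fun c => by
        simp [MvPowerSeries.algebraMap_apply] }
  exact ⟨MvPowerSeries (Fin k) C', inferInstance,
    ⟨C', inferInstance, ε, ⟨T₀, rfl⟩, hC', res_power_series C' k ε fun _ => rfl⟩,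
    i'.comp j, by rw [RingHom.coe_comp]; exact hi'.comp hj⟩

end Pool.Agent.H320.PG
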