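import Mathlib

/-!
helper320: statements of the number theoretic lemmas.
-/

set_option autoImplicit false

namespace Pool.Agent.H320.NT

/-- Schur's denominators: the `l`-part of this number is the `l`-part of the bound for the orders
of the finite subgroups of `GL_n` over the `m`-th cyclotomic field -/
def sch (l m n : ℕ) : ℕ :=
  if l ∣ m then l ^ (m.factorization l * n) * n.factorial
  else l ^ (n / (l - 1)) * (n / (l - 1)).factorial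

/-- the primes used at `l` -/
def PP (m l p : ℕ) : Prop :=
  p.Prime ∧ m ∣ p - 1 ∧ ∀ n : ℕ, ∃ r : ℕ, ¬ l ∣ r ∧
    Nat.card (Matrix.GeneralLinearGroup (Fin n) (ZMod p)) ∣ r * sch l m n

/-- NT-A1 -/
def A1 : Prop := ∀ (l p a n : ℕ), l.Prime → p.Prime → 0 < a → (l = 2 → 2 ≤ a) →
  l ^ a ∣ p - 1 → ¬ l ^ (a + 1) ∣ p - 1 →
    ∃ r : ℕ, ¬ l ∣ r ∧ Nat.card (Matrix.GeneralLinearGroup (Fin n) (ZMod p)) ∣
      r * (l ^ (a * n) * n.factorial)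

/-- NT-A2 -/
def A2 : Prop := ∀ (l p n : ℕ), l.Prime → l ≠ 2 → p.Prime → l ≠ p →
  (∀ j : ℕ, l ∣ p ^ j - 1 → l - 1 ∣ j) → ¬ l ^ 2 ∣ p ^ (l - 1) - 1 →
    ∃ r : ℕ, ¬ l ∣ r ∧ Nat.card (Matrix.GeneralLinearGroup (Fin n) (ZMod p)) ∣
      r * (l ^ (n / (l - 1)) * (n / (l - 1)).factorial)

/-- NT-B1 -/
def B1 : Prop := ∀ (m l N : ℕ), 0 < m → l.Prime → l ∣ m →
  ∃ p : ℕ, N < p ∧ p.Prime ∧ m ∣ p - 1 ∧ ¬ l ^ (m.factorization l + 1) ∣ p - 1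

/-- NT-B2 -/
def B2 : Prop := ∀ (m l N : ℕ), 0 < m → l.Prime → l ≠ 2 → ¬ l ∣ m →
  ∃ p : ℕ, N < p ∧ p.Prime ∧ m ∣ p - 1 ∧ l ≠ p ∧ (∀ j : ℕ, l ∣ p ^ j - 1 → l - 1 ∣ j) ∧
    ¬ l ^ 2 ∣ p ^ (l - 1) - 1

/-- NT-C -/
def C1 : Prop := ∀ (m p : ℕ) [Fact p.Prime], 0 < m → m ∣ p - 1 → ∃ ξ : ℤ_[p], IsPrimitiveRoot ξ m

theorem exists_PP (a1 : A1) (a2 : A2) (b1 : B1) (b2 : B2) (m l N : ℕ) (hm : 0 < m) (hl : l.Prime)
    (h2 : l = 2 → 4 ∣ m) : ∃ p, N < p ∧ PP m l p := by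
  by_cases h : l ∣ m
  · obtain ⟨p, hN, hp, h1, h3⟩ := b1 m l N hm hl h
    refine ⟨p, hN, hp, h1, fun n => ?_⟩
    have hdv : l ^ m.factorization l ∣ m := Nat.ordProj_dvd m l
    have ha : 0 < m.factorization l := hl.factorization_pos_of_dvd hm.ne' h
    rw [sch, if_pos h]
    refine a1 l p _ n hl hp ha ?_ (hdv.trans h1) h3
    intro h4
    have h5 := h2 h4
    subst h4
    exact (Nat.Prime.pow_dvd_iff_le_factorization hl hm.ne').1 (by simpa using h5)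
  · obtain ⟨p, hN, hp, h1, h3, h4, h5⟩ := b2 m l N hm hl (fun h6 => h (by
      have := h2 h6
      rw [h6]
      exact (show 2 ∣ 4 by norm_num).trans this)) h
    refine ⟨p, hN, hp, h1, fun n => ?_⟩
    rw [sch, if_neg h]
    exact a2 l p n hl (fun h6 => h (by
      have := h2 h6
      rw [h6]
      exact (show 2 ∣ 4 by norm_num).trans this)) hp h3 h4 h5

end Pool.Agent.H320.NT
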