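import Pool.Agent.H320.GS.Gl
import Pool.Agent.H320.GS.Nst

/-!
helper320: a class of pairs `(G, d)` which is uniform in the choice of the primes.
-/

set_option autoImplicit false

namespace Pool.Agent.H320.PG

open Monoid
open Pool.Agent.H371.SA Pool.Agent.H371.SB Pool.Agent.H371.SC
open Pool.Agent.H320.NT
open Pool.Agent.W656.VA

/-- data for `G` at the prime `p` with a denominator whose `l`-part divides `d` -/
def D (l p : ℕ) (G : Type) [Group G] (d : ℕ) : Prop :=
  ∃ (_ : Fact p.Prime) (c q : ℕ), GS p c q G ∧ ∃ r : ℕ, ¬ l ∣ r ∧ q * c ∣ r * d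

theorem D.sub {l p : ℕ} {G H : Type} [Group G] [Group H] {d : ℕ} (f : H →* G)
    (hf : Function.Injective f) (hG : D l p G d) : D l p H d := by
  obtain ⟨i1, c, q, hc, r, hr, h⟩ := hG
  exact ⟨i1, c, q, GS.sub p c q G H f hf hc, r, hr, h⟩

theorem D.prod {l p : ℕ} (hl : l.Prime) {G H : Type} [Group G] [Group H] {d e : ℕ}
    (hG : D l p G d) (hH : D l p H e) : D l p (G × H) (d * e) := by
  obtain ⟨i1, c, q, hc, r, hr, h⟩ := hG
  obtain ⟨i2, c', q', hc', r', hr', h'⟩ := hH
  refine ⟨i1, c * c', q * q', GS.prod p c c' q q' G H hc hc', r * r', ?_, ?_⟩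
  · intro h
    rcases hl.dvd_mul.1 h with h | h
    · exact hr h
    · exact hr' h
  · have := mul_dvd_mul h h'
    have e1 : r * d * (r' * e) = r * r' * (d * e) := by ring
    have e2 : q * c * (q' * c') = q * q' * (c * c') := by ring
    rwa [e1, e2] at this

theorem D.free {l p : ℕ} {G : Type} [Group G] {d : ℕ} (m : ℕ) (hG : D l p G d) :
    D l p (Coprod G (FreeGroup (Fin m))) d := by
  obtain ⟨i1, c, q, hc, r, hr, h⟩ := hG
  exact ⟨i1, c, q, GS.coprod_free p c q G m hc, r, hr, h⟩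

/-- the prime two is special -/
def Spc (m l : ℕ) : Prop := l = 2 ∧ ¬ 4 ∣ m

/-- for every finitely generated subgroup and every prime `l` there are data at all large primes of
the type `PP m l`, respectively at the prime `2` -/
def U (m : ℕ) (G : Type) [Group G] (d : ℕ) : Prop :=
  0 < d ∧ ∀ H : Subgroup G, H.FG → ∃ N : ℕ, ∀ l : ℕ, l.Prime →
    (Spc m l → D l 2 H d) ∧ (¬ Spc m l → ∀ p, N < p → PP m l p → D l p H d)

theorem fg_map {G H : Type} [Group G] [Group H] (f : G →* H) {K : Subgroup G} (hK : K.FG) :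
    (K.map f).FG := by
  classical
  obtain ⟨S, rfl⟩ := hK
  exact ⟨S.image f, by rw [Finset.coe_image, ← MonoidHom.map_closure]⟩

theorem fg_sup {G : Type} [Group G] {A B : Subgroup G} (hA : A.FG) (hB : B.FG) :
    (A ⊔ B).FG := by
  classical
  obtain ⟨S, rfl⟩ := hA
  obtain ⟨T, rfl⟩ := hB
  exact ⟨S ∪ T, by rw [Finset.coe_union, Subgroup.closure_union]⟩

theorem U.sub {m : ℕ} {G H : Type} [Group G] [Group H] {d : ℕ} (f : H →* G)
    (hf : Function.Injective f) (hG : U m G d) : U m H d := by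
  refine ⟨hG.1, fun K hK => ?_⟩
  obtain ⟨N, hN⟩ := hG.2 (K.map f) (fg_map f hK)
  let g : K →* K.map f := (f.comp K.subtype).codRestrict (K.map f) (fun k => ⟨k, k.2, rfl⟩)
  have hg : Function.Injective g := by
    intro a b hab
    exact Subtype.ext (hf (congrArg (fun w : K.map f => (w : G)) hab))
  exact ⟨N, fun l hl => ⟨fun h => ((hN l hl).1 h).sub g hg,
    fun h p hp hpp => ((hN l hl).2 h p hp hpp).sub g hg⟩⟩

theorem U.prod {m : ℕ} {G H : Type} [Group G] [Group H] {d e : ℕ} (hG : U m G d)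
    (hH : U m H e) : U m (G × H) (d * e) := by
  refine ⟨Nat.mul_pos hG.1 hH.1, fun K hK => ?_⟩
  obtain ⟨N, hN⟩ := hG.2 (K.map (MonoidHom.fst G H)) (fg_map _ hK)
  obtain ⟨N', hN'⟩ := hH.2 (K.map (MonoidHom.snd G H)) (fg_map _ hK)
  let g₁ : K →* K.map (MonoidHom.fst G H) :=
    ((MonoidHom.fst G H).comp K.subtype).codRestrict (K.map (MonoidHom.fst G H))
      (fun k => ⟨k, k.2, rfl⟩)
  let g₂ : K →* K.map (MonoidHom.snd G H) :=
    ((MonoidHom.snd G H).comp K.subtype).codRestrict (K.map (MonoidHom.snd G H))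
      (fun k => ⟨k, k.2, rfl⟩)
  let g : K →* K.map (MonoidHom.fst G H) × K.map (MonoidHom.snd G H) := g₁.prod g₂
  have hg : Function.Injective g := by
    intro a b hab
    have h1 := congrArg (fun w : K.map (MonoidHom.fst G H) × K.map (MonoidHom.snd G H) =>
      ((w.1 : G), (w.2 : H))) hab
    exact Subtype.ext h1
  refine ⟨max N N', fun l hl => ⟨fun h => ?_, fun h p hp hpp => ?_⟩⟩
  · exact (D.prod hl ((hN l hl).1 h) ((hN' l hl).1 h)).sub g hg
  · exact (D.prod hl ((hN l hl).2 h p (lt_of_le_of_lt (le_max_left _ _) hp) hpp)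
      ((hN' l hl).2 h p (lt_of_le_of_lt (le_max_right _ _) hp) hpp)).sub g hg

/-- free products of subgroups -/
theorem map_inj' {G F : Type} [Group G] [Group F] (A₀ : Subgroup G) :
    Function.Injective (Coprod.map A₀.subtype (MonoidHom.id F)) := by
  have h1 : Coprod.map A₀.subtype (MonoidHom.id F) =
      (Coprod.map A₀.subtype (⊤ : Subgroup F).subtype).comp
        (Coprod.map (MonoidHom.id A₀) (Subgroup.topEquiv (G := F)).symm.toMonoidHom) := by
    apply Coprod.hom_ext
    · ext a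
      simp
    · ext b
      simp
  rw [h1, MonoidHom.coe_comp]
  refine (Pool.Agent.H320.SP.map_inj A₀ (⊤ : Subgroup F)).comp ?_
  refine Function.LeftInverse.injective
    (g := Coprod.map (MonoidHom.id A₀) (Subgroup.topEquiv (G := F)).toMonoidHom) ?_
  intro x
  have h2 : (Coprod.map (MonoidHom.id A₀) (Subgroup.topEquiv (G := F)).toMonoidHom).comp
      (Coprod.map (MonoidHom.id A₀) (Subgroup.topEquiv (G := F)).symm.toMonoidHom) =
        MonoidHom.id _ := by
    apply Coprod.hom_ext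
    · ext a
      simp
    · ext b
      simp
  exact DFunLike.congr_fun h2 x

theorem map_mono {G F : Type} [Group G] [Group F] {A B : Subgroup G} (h : A ≤ B) :
    (Coprod.map A.subtype (MonoidHom.id F)).range ≤ (Coprod.map B.subtype (MonoidHom.id F)).range := by
  have h1 : Coprod.map A.subtype (MonoidHom.id F) =
      (Coprod.map B.subtype (MonoidHom.id F)).comp
        (Coprod.map (Subgroup.inclusion h) (MonoidHom.id F)) := by
    apply Coprod.hom_ext
    · ext a
      simp
    · ext b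
      simp
  rw [h1]
  rintro _ ⟨x, rfl⟩
  exact ⟨_, rfl⟩

theorem exists_fg_one {G F : Type} [Group G] [Group F] (x : Coprod G F) :
    ∃ A : Subgroup G, A.FG ∧ x ∈ (Coprod.map A.subtype (MonoidHom.id F)).range := by
  induction x using Coprod.induction_on with
  | inl g =>
    refine ⟨Subgroup.zpowers g, ⟨{g}, by simp [Subgroup.zpowers_eq_closure]⟩,
      Coprod.inl ⟨g, Subgroup.mem_zpowers g⟩, ?_⟩
    simp
  | inr b =>
    exact ⟨⊥, ⟨∅, by simp⟩, Coprod.inr b, by simp⟩
  | mul x y hx hy =>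
    obtain ⟨A, hA, hxA⟩ := hx
    obtain ⟨B, hB, hyB⟩ := hy
    exact ⟨A ⊔ B, fg_sup hA hB, mul_mem (map_mono le_sup_left hxA) (map_mono le_sup_right hyB)⟩

theorem exists_fg_finset {G F : Type} [Group G] [Group F] (S : Finset (Coprod G F)) :
    ∃ A : Subgroup G, A.FG ∧ ∀ x ∈ S, x ∈ (Coprod.map A.subtype (MonoidHom.id F)).range := by
  classical
  induction S using Finset.induction_on with
  | empty => exact ⟨⊥, ⟨∅, by simp⟩, by simp⟩
  | insert a S _ ih =>
    obtain ⟨A, hA, h⟩ := ih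
    obtain ⟨B, hB, h'⟩ := exists_fg_one a
    refine ⟨A ⊔ B, fg_sup hA hB, fun x hx => ?_⟩
    rcases Finset.mem_insert.1 hx with rfl | hx
    · exact map_mono le_sup_right h'
    · exact map_mono le_sup_left (h x hx)

theorem U.free {m : ℕ} {G : Type} [Group G] {d : ℕ} (k : ℕ) (hG : U m G d) :
    U m (Coprod G (FreeGroup (Fin k))) d := by
  refine ⟨hG.1, fun K hK => ?_⟩
  obtain ⟨S, hS⟩ := hK
  obtain ⟨A, hA, hSA⟩ := exists_fg_finset S
  obtain ⟨N, hN⟩ := hG.2 A hA
  set φ := Coprod.map A.subtype (MonoidHom.id (FreeGroup (Fin k))) with hφ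
  have hKA : K ≤ φ.range := by
    rw [← hS, Subgroup.closure_le]
    exact hSA
  let g : K →* Coprod A (FreeGroup (Fin k)) :=
    ((MonoidHom.ofInjective (map_inj' (F := FreeGroup (Fin k)) A)).symm.toMonoidHom).comp
      (Subgroup.inclusion hKA)
  have hg : Function.Injective g :=
    (MonoidHom.ofInjective (map_inj' (F := FreeGroup (Fin k)) A)).symm.injective.comp
      (Subgroup.inclusion_injective hKA)
  exact ⟨N, fun l hl => ⟨fun h => (((hN l hl).1 h).free k).sub g hg,
    fun h p hp hpp => (((hN l hl).2 h p hp hpp).free k).sub g hg⟩⟩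

/-- the existence of the primes -/
def Ex : Prop := ∀ (m l N : ℕ), 0 < m → l.Prime → (l = 2 → 4 ∣ m) → ∃ p, N < p ∧ PP m l p

theorem U.main (hex : Ex) {m : ℕ} (hm : 0 < m) {G : Type} [Group G] {d : ℕ} (hG : U m G d)
    (v : ℝ) (hv : Val (⊤ : Subring ℂ) G v) : ∃ z : ℤ, (d : ℝ) * v = z := by
  classical
  refine val_of_fg (fun H hH v hv => ?_) v hv
  obtain ⟨N, hN⟩ := hG.2 H hH
  have h1 : ∀ l : ℕ, ∃ p : ℕ, l.Prime → D l p H d := by
    intro l
    by_cases hl : l.Prime
    · by_cases hs : Spc m l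
      · exact ⟨2, fun _ => (hN l hl).1 hs⟩
      · obtain ⟨p, hp, hpp⟩ := hex m l N hm hl (fun h2 => by
          by_contra h4
          exact hs ⟨h2, h4⟩)
        exact ⟨p, fun _ => (hN l hl).2 hs p hp hpp⟩
    · exact ⟨0, fun h => absurd h hl⟩
  choose π hπ using h1
  exact CP.main (π := π) ⟨hG.1, fun l hl => hπ l hl⟩ v hv

end Pool.Agent.H320.PG
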