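import Pool.Agent.H320.GS.Cls

/-!
helper320: groups acting on residually torsion-free nilpotent groups, and outer actions on free
groups: the data at one prime, with the order of the image modulo `p`.
-/

set_option autoImplicit false

namespace Pool.Agent.H320.PG

open Pool.Agent.H371.SA Pool.Agent.H371.SB Pool.Agent.H320.TF
open Pool.Agent.H371.SA.Nx
open Pool.Agent.H371.SB.S0x

/-- the points of `G` are separated by homomorphisms to unit groups of orders which are congruent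
to `1` when `φ` is -/
def Sep (p : ℕ) [Fact p.Prime] {A : Type} [Ring A] {G : Type} [Group G] (φ : G →* Aˣ) : Prop :=
  ∀ g : G, g ≠ 1 → ∃ (l : ℕ) (B : Type) (_ : Ring B) (_ : Algebra ℤ_[p] B)
      (_ : Module.Free ℤ_[p] B) (_ : Module.Finite ℤ_[p] B) (ψ : G →* Bˣ),
      (∀ h : G, (∃ a : A, ((φ h : Aˣ) : A) = 1 + (p : A) ^ l * a) →
        ∃ b : B, (ψ h : B) = 1 + (p : B) ^ 2 * b) ∧ ψ g ≠ 1

/-- a finite quotient of order dividing `q * p ^ b` modulo which `φ` is congruent to `1` -/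
def Quo (p q : ℕ) {A : Type} [Ring A] {G : Type} [Group G] (φ : G →* Aˣ) : Prop :=
  ∃ (F : Type) (_ : Group F) (_ : Finite F) (π : G →* F) (b : ℕ), Nat.card F ∣ q * p ^ b ∧
      ∀ h : G, π h = 1 → φ h ∈ Cong p A 1

section
variable {p : ℕ} [hp : Fact p.Prime] {A : Type} [Ring A] [Algebra ℤ_[p] A]
  [Module.Free ℤ_[p] A] [Module.Finite ℤ_[p] A] {G : Type} [Group G] (φ : G →* Aˣ)

theorem quo_pow {q : ℕ} (hq : Quo p q φ) (k : ℕ) :
    ∃ (F : Type) (_ : Group F) (_ : Finite F) (π : G →* F) (b : ℕ), Nat.card F ∣ q * p ^ b ∧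
      ∀ h : G, π h = 1 → ∃ a : ℕ, ((φ h : Aˣ) ^ (p ^ a)) ∈ Cong p A k := by
  obtain ⟨F, i1, i2, π, b, hF, h⟩ := hq
  refine ⟨F, i1, i2, π, b, hF, fun g hg => ⟨k, ?_⟩⟩
  have h1 : (φ g : Aˣ) ^ (p ^ 0) ∈ Cong p A 1 := by
    rw [pow_zero, pow_one]; exact h g hg
  have h2 := cong_pow_pow (le_refl 1) (h g hg) k
  exact cong_mono (by omega) h2

theorem GS.of_noT {q : ℕ} (h : NoT p φ) (hs : Sep p φ) (hq : Quo p q φ) : GS p 1 q G := by
  obtain ⟨m, hm, hlev⟩ := exists_level φ h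
  have hp1 : 1 < p := hp.out.one_lt
  have hmem : ∀ g : G, φ g ∈ near p m φ := fun g => ⟨g, 0, by simp⟩
  refine ⟨A, inferInstance, inferInstance, inferInstance, inferInstance, near p m φ, m,
    φ.codRestrict (near p m φ) hmem, fun _ => ((1 : ℤ) : ℤ_[p]), ?_, ?_, AC.const _ _ 1, ?_, ?_,
    quo_pow φ hq m, ?_⟩
  · calc 2 < p ^ 2 := by nlinarith
      _ ≤ p ^ m := Nat.pow_le_pow_right hp.out.pos hm
  · rintro u ⟨a, ha⟩
    exact ⟨1, a, by rw [ha, map_one, Units.val_one]⟩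
  · simp
  · intro t ht a hta
    exfalso
    apply ht
    apply Subtype.ext
    refine near_ppower φ m hm hlev a (t : Aˣ) t.2 ?_
    have := congrArg Subtype.val hta
    rwa [SubmonoidClass.coe_pow] at this
  · intro g hg
    obtain ⟨l, B, i1, i2, i3, i4, ψ, h1, h2⟩ := hs g hg
    exact ⟨l, B, i1, i2, i3, i4, ψ, fun h hh => h1 h hh, h2⟩

theorem GS.of_cc {n q : ℕ} (φ : G →* (Matrix (Fin n) (Fin n) ℤ_[p])ˣ) (hs : Sep p φ)
    (hq : Quo p q φ) : GS p (cc p n) q G := by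
  obtain ⟨f, hf, hf1, hf0⟩ := gl_char p n
  have hp1 : 1 < p := (Fact.out : p.Prime).one_lt
  refine ⟨Matrix (Fin n) (Fin n) ℤ_[p], inferInstance, inferInstance, inferInstance,
    inferInstance, ⊤, 2, φ.codRestrict ⊤ (fun _ => trivial), f, by nlinarith,
    fun _ _ => trivial, hf, hf1, hf0, quo_pow φ hq 2, ?_⟩
  intro g hg
  obtain ⟨l, B, i1, i2, i3, i4, ψ, h1, h2⟩ := hs g hg
  exact ⟨l, B, i1, i2, i3, i4, ψ, fun h hh => h1 h hh, h2⟩

end

section act
variable {N : Type} [Group N] {n : ℕ} (e : Abelianization N ≃* Multiplicative (Fin n → ℤ))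

theorem sep_aut (p : ℕ) [Fact p.Prime] (hN : RTFN N) {G : Type} [Group G] (α : G →* MulAut N)
    (hα : Function.Injective α) : Sep p ((abG e p).comp α) := by
  have hFG := fg_ab e
  intro g hg
  have h1 : ∃ x : N, α g x ≠ x := by
    by_contra hcon
    push Not at hcon
    apply hg
    apply hα
    rw [map_one]
    exact MulEquiv.ext hcon
  obtain ⟨x, hx⟩ := h1
  obtain ⟨K, hK⟩ := dim_of_rtfn ℚ_[p] N hN (α g x * x⁻¹) (by
    intro h
    exact hx (mul_inv_eq_one.1 h))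
  obtain ⟨B, i1, i2, i3, i4, ψ, h2, h3⟩ := exists_rep p N K
  refine ⟨2, B, i1, i2, i3, i4, ψ.comp α, ?_, ?_⟩
  · intro h hh
    exact h2 _ (trivAb_of e p _ hh)
  · intro h
    apply hK
    have h4 := aug_mul _ K _ x⁻¹ (h3 _ h x)
    rw [sub_mul, ← map_mul, ← map_mul, mul_inv_cancel, map_one] at h4
    exact h4

theorem sep_out (p : ℕ) [Fact p.Prime] (n : ℕ) {G : Type} [Group G]
    (α : G →* (MulAut (FreeGroup (Fin n)) ⧸ innS (FreeGroup (Fin n))))
    (hα : Function.Injective α) : Sep p ((outG p (eF n)).comp α) := by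
  have hFG := fg_ab (eF n)
  intro g hg
  obtain ⟨h, hh⟩ := QuotientGroup.mk_surjective (α g)
  have h1 : ¬ ∃ y, h = MulAut.conj y := by
    rintro ⟨y, rfl⟩
    apply hg
    apply hα
    rw [map_one, ← hh, QuotientGroup.eq_one_iff]
    exact ⟨y, rfl⟩
  have h2 : ∃ (K : ℕ) (x : FreeGroup (Fin n)),
      MonoidAlgebra.of ℚ_[p] _ (h x) - MonoidAlgebra.of ℚ_[p] _ x ∉
        (aug ℚ_[p] (FreeGroup (Fin n))) ^ (K + 1) ⊔ cm ℚ_[p] (FreeGroup (Fin n)) := by
    by_contra hcon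
    push Not at hcon
    exact h1 (inner_of_cyc ℚ_[p] n h hcon)
  obtain ⟨K, x, hKx⟩ := h2
  obtain ⟨B, i1, i2, i3, i4, ψ, h3, h4, h5⟩ := exists_rep_out p (FreeGroup (Fin n)) K
  refine ⟨2, B, i1, i2, i3, i4, (QuotientGroup.lift (innS (FreeGroup (Fin n))) ψ (by
    rintro _ ⟨y, rfl⟩
    exact h4 y)).comp α, ?_, ?_⟩
  · intro g' hg'
    obtain ⟨h', hh'⟩ := QuotientGroup.mk_surjective (α g')
    rw [MonoidHom.comp_apply, ← hh', QuotientGroup.lift_mk]
    apply h3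
    apply trivAb_of (eF n) p
    obtain ⟨a, ha⟩ := hg'
    refine ⟨a, ?_⟩
    rw [← ha]
    change _ = ((outG p (eF n) (α g') : (Matrix (Fin n) (Fin n) ℤ_[p])ˣ) :
      Matrix (Fin n) (Fin n) ℤ_[p])
    rw [← hh']
    rfl
  · intro h6
    rw [MonoidHom.comp_apply, ← hh, QuotientGroup.lift_mk] at h6
    exact hKx (h5 h h6 x)

/-- the action modulo `p` -/
theorem quo_of_matrix (p : ℕ) [Fact p.Prime] {G : Type} [Group G] {n : ℕ}
    (M : G → Matrix (Fin n) (Fin n) ℤ) (φ : G →* (Matrix (Fin n) (Fin n) ℤ_[p])ˣ)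
    (hφ : ∀ g, ((φ g : (Matrix (Fin n) (Fin n) ℤ_[p])ˣ) : Matrix (Fin n) (Fin n) ℤ_[p]) =
      (M g).map (Int.cast : ℤ → ℤ_[p])) :
    Quo p (Nat.card (Set.range fun g => (M g).map (Int.cast : ℤ → ZMod p))) φ := by
  classical
  let ρ : Matrix (Fin n) (Fin n) ℤ_[p] →+* Matrix (Fin n) (Fin n) (ZMod p) :=
    RingHom.mapMatrix PadicInt.toZMod
  let π : G →* (Matrix (Fin n) (Fin n) (ZMod p))ˣ := (Units.map (ρ : _ →* _)).comp φ
  have hπ : ∀ g, ((π g : (Matrix (Fin n) (Fin n) (ZMod p))ˣ) : Matrix (Fin n) (Fin n) (ZMod p)) =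
      (M g).map (Int.cast : ℤ → ZMod p) := by
    intro g
    change ρ ((φ g : (Matrix (Fin n) (Fin n) ℤ_[p])ˣ) : Matrix (Fin n) (Fin n) ℤ_[p]) = _
    rw [hφ]
    ext i j
    simp [ρ]
  refine ⟨π.range, inferInstance, inferInstance, π.rangeRestrict, 0, ?_, ?_⟩
  · rw [pow_zero, mul_one]
    refine dvd_of_eq ?_
    refine Nat.card_congr (Equiv.ofBijective
      (fun x : π.range => ⟨((x : (Matrix (Fin n) (Fin n) (ZMod p))ˣ) :
        Matrix (Fin n) (Fin n) (ZMod p)), ?_⟩) ⟨?_, ?_⟩)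
    · obtain ⟨_, g, rfl⟩ := x
      exact ⟨g, (hπ g).symm⟩
    · intro x y hxy
      exact Subtype.ext (Units.ext (congrArg Subtype.val hxy))
    · rintro ⟨_, g, rfl⟩
      exact ⟨⟨π g, g, rfl⟩, Subtype.ext (hπ g)⟩
  · intro h hh
    have h1 : π h = 1 := congrArg (fun x : π.range => (x : (Matrix (Fin n) (Fin n) (ZMod p))ˣ)) hh
    have h2 : (M h).map (Int.cast : ℤ → ZMod p) = 1 := by
      rw [← hπ, h1, Units.val_one]
    have h3 : ∀ i j, ∃ m : ℤ, M h i j = (1 : Matrix (Fin n) (Fin n) ℤ) i j + (p : ℤ) * m := by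
      intro i j
      have h4 := congrFun (congrFun h2 i) j
      rw [Matrix.map_apply] at h4
      have h5 : ((M h i j - (1 : Matrix (Fin n) (Fin n) ℤ) i j : ℤ) : ZMod p) = 0 := by
        rw [Int.cast_sub, h4, Matrix.one_apply, Matrix.one_apply]
        split_ifs <;> simp
      obtain ⟨m, hm⟩ := (ZMod.intCast_zmod_eq_zero_iff_dvd _ p).1 h5
      exact ⟨m, by rw [← hm]; ring⟩
    choose m hm using h3
    refine ⟨(Matrix.of m).map (Int.cast : ℤ → ℤ_[p]), ?_⟩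
    rw [hφ, pow_one]
    ext i j
    rw [Matrix.add_apply, Matrix.map_apply, hm i j]
    have h6 : ((p : Matrix (Fin n) (Fin n) ℤ_[p]) * (Matrix.of m).map (Int.cast : ℤ → ℤ_[p])) i j =
        (p : ℤ_[p]) * (m i j : ℤ_[p]) := by
      rw [← nsmul_eq_mul, Matrix.smul_apply, nsmul_eq_mul]
      rfl
    rw [h6, Matrix.one_apply, Matrix.one_apply]
    split_ifs <;> push_cast <;> simp

end act

end Pool.Agent.H320.PG
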