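import Pool.Agent.H371.SB.U12
import Pool.Agent.H320.TF.Act

/-!
helper320: integrality at one prime `p` with a denominator bounded by the order of a finite
quotient modulo which the `p`-adic image is pro-`p`.
-/

set_option autoImplicit false

namespace Pool.Agent.H320.PG

open Filter Topology
open Pool.Agent.H371.SA Pool.Agent.H371.SB
open Pool.Agent.H371.SB.S0x
open Pool.Agent.H80R2.BC (L2 GMat vdim kerA Coef act)
open Pool.Agent.W656.VA

/-- the data of `GR p c G` together with a homomorphism `π` to a finite group, of order dividing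
`q * p ^ b`, such that the elements of the kernel of `π` have powers with exponent a power of `p`
which are congruent to `1` modulo `p ^ k` -/
def GS (p : ℕ) [Fact p.Prime] (c q : ℕ) (G : Type) [Group G] : Prop :=
  ∃ (A : Type) (_ : Ring A) (_ : Algebra ℤ_[p] A) (_ : Module.Free ℤ_[p] A)
    (_ : Module.Finite ℤ_[p] A) (P : Subgroup Aˣ) (k : ℕ) (φ : G →* P) (f : P → ℤ_[p]),
    2 < p ^ k ∧ (∀ u : Aˣ, (∃ a : A, (u : A) = 1 + (p : A) ^ k * a) → u ∈ P) ∧
    f ∈ AC p P ∧ f 1 = c ∧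
    (∀ t : P, t ≠ 1 → ∀ a : ℕ, t ^ (p ^ a) = 1 → f t = 0) ∧
    (∃ (F : Type) (_ : Group F) (_ : Finite F) (π : G →* F) (b : ℕ), Nat.card F ∣ q * p ^ b ∧
      ∀ h : G, π h = 1 → ∃ a : ℕ, ((φ h : Aˣ) ^ (p ^ a)) ∈ Cong p A k) ∧
    ∀ g : G, g ≠ 1 → ∃ (l : ℕ) (B : Type) (_ : Ring B) (_ : Algebra ℤ_[p] B)
      (_ : Module.Free ℤ_[p] B) (_ : Module.Finite ℤ_[p] B) (ψ : G →* Bˣ),
      (∀ h : G, (∃ a : A, ((φ h : Aˣ) : A) = 1 + (p : A) ^ l * a) →
        ∃ b : B, (ψ h : B) = 1 + (p : B) ^ 2 * b) ∧ ψ g ≠ 1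

/-- from the data of `GR` -/
theorem GS.of_GR (p : ℕ) [Fact p.Prime] (c : ℕ) (G : Type) [Group G] (hG : GR p c G) :
    ∃ q : ℕ, ¬ p ∣ q ∧ GS p c q G := by
  obtain ⟨A, iR, iA, iF, iM, P, k, φ, f, hk, hP, hf, hc, h0, hs⟩ := hG
  obtain ⟨T, hT, -⟩ := exists_tower p A P k hk hP
  have hne : Nat.card (P ⧸ T.U 0) ≠ 0 := Nat.card_pos.ne'
  obtain ⟨b, q, hq, hcard⟩ := Nat.exists_eq_pow_mul_and_not_dvd hne p
    (Fact.out : p.Prime).ne_one
  refine ⟨q, hq, A, iR, iA, iF, iM, P, k, φ, f, hk, hP, hf, hc, h0,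
    ⟨P ⧸ T.U 0, inferInstance, inferInstance, (QuotientGroup.mk' (T.U 0)).comp φ, b, ?_, ?_⟩, hs⟩
  · rw [hcard, mul_comm]
  · intro h hh
    refine ⟨0, ?_⟩
    have h2 : φ h ∈ T.U 0 := by
      rw [← QuotientGroup.eq_one_iff]
      exact hh
    have h3 := (hT 0 _).1 h2
    rw [add_zero] at h3
    rw [pow_zero, pow_one]
    exact h3

theorem GS.sub (p : ℕ) [Fact p.Prime] (c q : ℕ) (G H : Type) [Group G] [Group H] (f : H →* G)
    (hf : Function.Injective f) (hG : GS p c q G) : GS p c q H := by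
  obtain ⟨A, iR, iA, iF, iM, P, k, φ, χ, hk, hP, hχ, hc, h0, ⟨F, _, _, π, b, hF, hπ⟩, hs⟩ := hG
  refine ⟨A, iR, iA, iF, iM, P, k, φ.comp f, χ, hk, hP, hχ, hc, h0,
    ⟨F, inferInstance, inferInstance, π.comp f, b, hF, fun h hh => hπ (f h) hh⟩, ?_⟩
  intro h hh
  obtain ⟨l, B, jR, jA, jF, jM, ψ, h1, h2⟩ := hs (f h) (fun e => hh (hf (by rw [e, map_one])))
  exact ⟨l, B, jR, jA, jF, jM, ψ.comp f, fun x hx => h1 (f x) hx, h2⟩

/-- `q` may be replaced by a multiple -/
theorem GS.mono (p : ℕ) [Fact p.Prime] (c q q' : ℕ) (G : Type) [Group G] (hq : q ∣ q')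
    (hG : GS p c q G) : GS p c q' G := by
  obtain ⟨A, iR, iA, iF, iM, P, k, φ, χ, hk, hP, hχ, hc, h0, ⟨F, _, _, π, b, hF, hπ⟩, hs⟩ := hG
  exact ⟨A, iR, iA, iF, iM, P, k, φ, χ, hk, hP, hχ, hc, h0,
    ⟨F, inferInstance, inferInstance, π, b, hF.trans (Nat.mul_dvd_mul_right hq _), hπ⟩, hs⟩

theorem GS.prod (p : ℕ) [Fact p.Prime] (c c' q q' : ℕ) (G H : Type) [Group G] [Group H]
    (hG : GS p c q G) (hH : GS p c' q' H) : GS p (c * c') (q * q') (G × H) := by
  obtain ⟨A, iR, iA, iF, iM, P, k, φ, f, hk, hP, hf, hc, h0, ⟨F, _, _, π, b, hF, hπF⟩, hs⟩ := hG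
  obtain ⟨A', iR', iA', iF', iM', P', k', φ', f', hk', hP', hf', hc', h0',
    ⟨F', _, _, π', b', hF', hπF'⟩, hs'⟩ := hH
  have hp1 : 1 ≤ p := (Fact.out : p.Prime).pos
  have hkk : ∀ (k : ℕ), 2 < p ^ k → 1 ≤ k := by
    intro k hk
    rcases Nat.eq_zero_or_pos k with rfl | h
    · simp at hk
    · exact h
  let P'' : Subgroup (A × A')ˣ :=
    (P.comap (Units.map (RingHom.fst A A' : A × A' →* A))) ⊓
      (P'.comap (Units.map (RingHom.snd A A' : A × A' →* A')))
  have hπ : ∀ u ∈ P'', Units.map (RingHom.fst A A' : A × A' →* A) u ∈ P := fun u hu => hu.1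
  have hπ' : ∀ u ∈ P'', Units.map (RingHom.snd A A' : A × A' →* A') u ∈ P' := fun u hu => hu.2
  let Φ : G × H →* P'' :=
    { toFun := fun x => ⟨MulEquiv.prodUnits.symm ((φ x.1 : Aˣ), (φ' x.2 : A'ˣ)), by
        constructor
        · change Units.map (RingHom.fst A A' : A × A' →* A) _ ∈ P
          have : Units.map (RingHom.fst A A' : A × A' →* A)
            (MulEquiv.prodUnits.symm ((φ x.1 : Aˣ), (φ' x.2 : A'ˣ))) = (φ x.1 : Aˣ) := by
            apply Units.ext; rfl
          rw [this]; exact (φ x.1).2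
        · change Units.map (RingHom.snd A A' : A × A' →* A') _ ∈ P'
          have : Units.map (RingHom.snd A A' : A × A' →* A')
            (MulEquiv.prodUnits.symm ((φ x.1 : Aˣ), (φ' x.2 : A'ˣ))) = (φ' x.2 : A'ˣ) := by
            apply Units.ext; rfl
          rw [this]; exact (φ' x.2).2⟩
      map_one' := by
        apply Subtype.ext
        apply Units.ext
        simp
      map_mul' := by
        intro x y
        apply Subtype.ext
        apply Units.ext
        simp
        rfl }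
  refine ⟨A × A', inferInstance, inferInstance, inferInstance, inferInstance, P'', max k k', Φ,
    (fun u : P'' => f ⟨Units.map (RingHom.fst A A' : A × A' →* A) u, hπ u u.2⟩) *
    (fun u : P'' => f' ⟨Units.map (RingHom.snd A A' : A × A' →* A') u, hπ' u u.2⟩),
    ?_, ?_, ?_, ?_, ?_, ?_, ?_⟩
  · exact lt_of_lt_of_le hk (Nat.pow_le_pow_right hp1 (le_max_left _ _))
  · rintro u ⟨a, ha⟩
    constructor
    · apply hP
      refine ⟨(p : A) ^ (max k k' - k) * a.1, ?_⟩
      have h1 := congrArg Prod.fst ha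
      rw [← mul_assoc, ← pow_add, Nat.add_sub_cancel' (le_max_left k k')]
      simpa using h1
    · apply hP'
      refine ⟨(p : A') ^ (max k k' - k') * a.2, ?_⟩
      have h1 := congrArg Prod.snd ha
      rw [← mul_assoc, ← pow_add, Nat.add_sub_cancel' (le_max_right k k')]
      simpa using h1
  · exact AC.mul p P'' (AC.comap p P'' P (RingHom.fst A A') hπ hf)
      (AC.comap p P'' P' (RingHom.snd A A') hπ' hf')
  · rw [Pi.mul_apply]
    have e1 : (⟨Units.map (RingHom.fst A A' : A × A' →* A) ((1 : P'') : (A × A')ˣ),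
      hπ _ (1 : P'').2⟩ : P) = 1 := by
      apply Subtype.ext; exact map_one _
    have e2 : (⟨Units.map (RingHom.snd A A' : A × A' →* A') ((1 : P'') : (A × A')ˣ),
      hπ' _ (1 : P'').2⟩ : P') = 1 := by
      apply Subtype.ext; exact map_one _
    rw [e1, e2, hc, hc', Nat.cast_mul]
  · intro t ht a hta
    rw [Pi.mul_apply]
    have h1 : (⟨Units.map (RingHom.fst A A' : A × A' →* A) (t : (A × A')ˣ), hπ _ t.2⟩ : P) ^
        (p ^ a) = 1 := by
      apply Subtype.ext
      have : ((t ^ (p ^ a) : P'') : (A × A')ˣ) = 1 := congrArg Subtype.val hta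
      have h3 := congrArg (Units.map (RingHom.fst A A' : A × A' →* A)) this
      rw [map_one, Subgroup.coe_pow, map_pow] at h3
      exact h3
    have h2 : (⟨Units.map (RingHom.snd A A' : A × A' →* A') (t : (A × A')ˣ), hπ' _ t.2⟩ : P') ^
        (p ^ a) = 1 := by
      apply Subtype.ext
      have : ((t ^ (p ^ a) : P'') : (A × A')ˣ) = 1 := congrArg Subtype.val hta
      have h3 := congrArg (Units.map (RingHom.snd A A' : A × A' →* A')) this
      rw [map_one, Subgroup.coe_pow, map_pow] at h3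
      exact h3
    by_cases ht1 : (⟨Units.map (RingHom.fst A A' : A × A' →* A) (t : (A × A')ˣ), hπ _ t.2⟩ : P) = 1
    · by_cases ht2 :
        (⟨Units.map (RingHom.snd A A' : A × A' →* A') (t : (A × A')ˣ), hπ' _ t.2⟩ : P') = 1
      · exfalso
        apply ht
        apply Subtype.ext
        apply Units.ext
        apply Prod.ext
        · exact congrArg (fun u : P => ((u : Aˣ) : A)) ht1
        · exact congrArg (fun u : P' => ((u : A'ˣ) : A')) ht2
      · rw [h0' _ ht2 a h2, mul_zero]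
    · rw [h0 _ ht1 a h1, zero_mul]
  · refine ⟨F × F', inferInstance, inferInstance, π.prodMap π', b + b', ?_, ?_⟩
    · rw [Nat.card_prod]
      have := mul_dvd_mul hF hF'
      have e1 : q * p ^ b * (q' * p ^ b') = q * q' * p ^ (b + b') := by ring
      rwa [e1] at this
    · rintro ⟨g, h⟩ hgh
      have h1 : π g = 1 ∧ π' h = 1 := Prod.ext_iff.1 hgh
      obtain ⟨a, ha⟩ := hπF g h1.1
      obtain ⟨a', ha'⟩ := hπF' h h1.2
      set K := max k k' with hK
      refine ⟨a + a' + K, ?_⟩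
      obtain ⟨x, hx⟩ : ((φ g : Aˣ) ^ (p ^ (a + a' + K))) ∈ Cong p A K := by
        rw [show a + a' + K = a + (a' + K) by ring, pow_add, pow_mul]
        exact cong_mono (by omega) (cong_pow_pow (hkk k hk) ha (a' + K))
      obtain ⟨x', hx'⟩ : ((φ' h : A'ˣ) ^ (p ^ (a + a' + K))) ∈ Cong p A' K := by
        rw [show a + a' + K = a' + (a + K) by ring, pow_add, pow_mul]
        exact cong_mono (by omega) (cong_pow_pow (hkk k' hk') ha' (a + K))
      refine ⟨(x, x'), ?_⟩
      rw [← Nat.cast_pow]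
      rw [← Nat.cast_pow] at hx hx'
      refine Prod.ext ?_ ?_
      · rw [Prod.fst_add, Prod.fst_one, Prod.fst_mul, Prod.fst_natCast, ← hx]
        have e3 : ((φ g : Aˣ) ^ (p ^ (a + a' + K)) : Aˣ) =
            Units.map (RingHom.fst A A' : A × A' →* A)
              ((Φ (g, h) : (A × A')ˣ) ^ (p ^ (a + a' + K))) := by
          rw [map_pow]
          congr 1
        rw [e3]
        rfl
      · rw [Prod.snd_add, Prod.snd_one, Prod.snd_mul, Prod.snd_natCast, ← hx']
        have e3 : ((φ' h : A'ˣ) ^ (p ^ (a + a' + K)) : A'ˣ) =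
            Units.map (RingHom.snd A A' : A × A' →* A')
              ((Φ (g, h) : (A × A')ˣ) ^ (p ^ (a + a' + K))) := by
          rw [map_pow]
          congr 1
        rw [e3]
        rfl
  · rintro ⟨g, h⟩ hgh
    by_cases hg : g = 1
    · have hh : h ≠ 1 := fun hh => hgh (by rw [hg, hh]; rfl)
      obtain ⟨l, B, jR, jA, jF, jM, ψ, h1, h2⟩ := hs' h hh
      refine ⟨l, B, jR, jA, jF, jM, ψ.comp (MonoidHom.snd G H), ?_, h2⟩
      rintro x ⟨a, ha⟩
      apply h1 x.2
      refine ⟨a.2, ?_⟩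
      have h3 := congrArg Prod.snd ha
      have h4 : ((Φ x : (A × A')ˣ) : A × A').2 = ((φ' x.2 : A'ˣ) : A') := rfl
      rw [← h4]
      simpa using h3
    · obtain ⟨l, B, jR, jA, jF, jM, ψ, h1, h2⟩ := hs g hg
      refine ⟨l, B, jR, jA, jF, jM, ψ.comp (MonoidHom.fst G H), ?_, h2⟩
      rintro x ⟨a, ha⟩
      apply h1 x.1
      refine ⟨a.1, ?_⟩
      have h3 := congrArg Prod.fst ha
      have h4 : ((Φ x : (A × A')ˣ) : A × A').1 = ((φ x.1 : Aˣ) : A) := rfl
      rw [← h4]
      simpa using h3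

open SB2x Pool.Agent.H371.SA.R2x in
theorem GS.coprod_int (p : ℕ) [Fact p.Prime] (c q : ℕ) (G : Type) [Group G] (hG : GS p c q G) :
    GS p c q (Monoid.Coprod G (Multiplicative ℤ)) := by
  obtain ⟨A, iR, iA, iF, iM, P, k, φ, f, hk, hP, hf, hc, h0, ⟨F, _, _, π, b, hF, hπ⟩, hs⟩ := hG
  refine ⟨A, iR, iA, iF, iM, P, k, φ.comp Monoid.Coprod.fst, f, hk, hP, hf, hc, h0,
    ⟨F, inferInstance, inferInstance, π.comp Monoid.Coprod.fst, b, hF,
      fun h hh => hπ (Monoid.Coprod.fst h) hh⟩, ?_⟩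
  intro x hx
  obtain ⟨g, L, hL, rfl⟩ := exists_word x
  by_cases hne : L = []
  · subst hne
    have h4 : Pool.Agent.H371.SA.R2x.ev g [] = Monoid.Coprod.inl g := by simp [Pool.Agent.H371.SA.R2x.ev]
    rw [h4] at hx ⊢
    obtain ⟨l, B, jR, jA, jF, jM, ψ, h1, h2⟩ := hs g (by
      intro h
      apply hx
      rw [h, map_one])
    refine ⟨l, B, jR, jA, jF, jM, ψ.comp Monoid.Coprod.fst, fun h hh => h1 _ hh, ?_⟩
    rw [MonoidHom.comp_apply, Monoid.Coprod.fst_apply_inl]
    exact h2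
  · obtain ⟨l, B, jR, jA, jF, jM, ψ0, h1, h2⟩ := combine p P φ hs (L.map Prod.snd)
    obtain ⟨Ψ, h3, h4⟩ := exists_hom (p := p) ψ0 g L hL hne
      (fun a ha => h2 a.2 (List.mem_map_of_mem ha))
    refine ⟨l, B × Matrix (J p B) (J p B) ℤ_[p], inferInstance, inferInstance, inferInstance,
      inferInstance, Ψ, ?_, h4⟩
    intro h hh
    exact h3 h (h1 _ hh)

open SB2x Pool.Agent.H371.SA.R2x in
theorem GS.coprod_free (p : ℕ) [Fact p.Prime] (c q : ℕ) (G : Type) [Group G] (m : ℕ)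
    (hG : GS p c q G) : GS p c q (Monoid.Coprod G (FreeGroup (Fin m))) := by
  induction m with
  | zero => exact GS.sub p c q _ _ (zeroIso G).symm.toMonoidHom (zeroIso G).symm.injective hG
  | succ m ih =>
    exact GS.sub p c q _ _ (splitIso G m).symm.toMonoidHom (splitIso G m).symm.injective
      (GS.coprod_int p c q _ ih)

/-- the local theorem -/
theorem GS.local (p : ℕ) [Fact p.Prime] (c q : ℕ) (G : Type) [Group G] (hG : GS p c q G) (v : ℝ)
    (hv : Val (Int.castRingHom ℂ).range G v) :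
    ∃ z : ℤ, (q : ℝ) * c * v = z := by
  classical
  obtain ⟨A, _, _, _, _, P, k, φ, f, hk, hP, hf, hf1, hf0, ⟨F, _, _, π, b, hF, hπ⟩, hsep⟩ := hG
  obtain ⟨m, n, X, hX, rfl⟩ := hv
  -- reduction to a finitely generated group
  let s : Finset G := Finset.univ.biUnion fun k : Fin n => Finset.univ.biUnion fun i : Fin m =>
    (X k i).support
  let H : Subgroup G := Subgroup.closure (s : Set G)
  have hs : ∀ k i, ∀ x ∈ (X k i).support, x ∈ H := by
    intro k i x hx
    apply Subgroup.subset_closure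
    simp only [s, Finset.coe_biUnion, Finset.coe_univ, Set.mem_iUnion, Finset.mem_coe]
    exact ⟨k, trivial, i, trivial, hx⟩
  have hcount : Countable H := by
    have h1 : Function.Surjective (FreeGroup.mk (α := {x : G // x ∈ (s : Set G)})) :=
      Quot.mk_surjective
    have h1' : Countable (List ({x : G // x ∈ (s : Set G)} × Bool)) := inferInstance
    have h2 : Countable (FreeGroup {x : G // x ∈ (s : Set G)}) := h1.countable
    have h3 : H = (FreeGroup.lift (fun x : {x : G // x ∈ (s : Set G)} => (x : G))).range :=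
      FreeGroup.closure_eq_range _
    rw [h3]
    exact (MonoidHom.rangeRestrict_surjective _).countable
  let Y : GMat (Fin n) (Fin m) H := fun k i => (X k i).comapDomain H.subtype
    H.subtype_injective.injOn
  have hYX : Pool.Agent.H80R2.BC.push H.subtype Y = X := by
    funext k i
    change Finsupp.mapDomain _ _ = _
    rw [Finsupp.mapDomain_comapDomain _ H.subtype_injective]
    intro x hx
    exact ⟨⟨x, hs k i x hx⟩, rfl⟩
  have hdim : vdim (kerA X) = vdim (kerA Y) := by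
    rw [← hYX]
    exact vdim_push H.subtype H.subtype_injective Y
  -- the Sylow subgroup
  let π' : H →* F := π.comp H.subtype
  let S : Sylow p π'.range := default
  let S' : Subgroup F := (S : Subgroup π'.range).map π'.range.subtype
  have hS' : IsPGroup p S' := S.2.map _
  let G₁ : Subgroup H := S'.comap π'
  have hidx : G₁.index = (S : Subgroup π'.range).index := by
    have h2 : (S'.comap π').index = S'.relIndex π'.range := Subgroup.index_comap _ _
    change (S'.comap π').index = _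
    rw [h2, Subgroup.relIndex]
    congr 1
    exact Subgroup.comap_map_eq_self_of_injective π'.range.subtype_injective _
  have hG₁ : ¬ p ∣ G₁.index := by
    rw [hidx]
    exact S.not_dvd_index
  have hG₁q : G₁.index ∣ q := by
    have h1 : G₁.index ∣ Nat.card F := by
      rw [hidx]
      exact (Subgroup.index_dvd_card _).trans (Subgroup.card_subgroup_dvd_card _)
    have h2 : Nat.Coprime G₁.index (p ^ b) :=
      ((Nat.Prime.coprime_iff_not_dvd Fact.out).2 hG₁).symm.pow_right b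
    exact h2.dvd_of_dvd_mul_right (h1.trans hF)
  have hpp : ∀ h ∈ G₁, ∃ a : ℕ, (((φ.comp H.subtype) h : Aˣ) ^ (p ^ a)) ∈ Cong p A k := by
    intro h hh
    obtain ⟨a, ha⟩ := hS' ⟨π' h, hh⟩
    have h1 : (π' h) ^ (p ^ a) = 1 := congrArg (fun w : S' => (w : F)) ha
    obtain ⟨a', ha'⟩ := hπ ((h : G) ^ (p ^ a)) (by rw [map_pow]; exact h1)
    refine ⟨a + a', ?_⟩
    rw [pow_add, pow_mul]
    rw [map_pow] at ha'
    exact ha'
  have hfin : G₁.index ≠ 0 := fun h => hG₁ (h ▸ dvd_zero p)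
  have : G₁.FiniteIndex := ⟨hfin⟩
  have : Fintype (H ⧸ G₁) := Fintype.ofFinite _
  obtain ⟨Z, hZ⟩ := Sx.exists_int (Pool.Agent.TH107.AT.res G₁ Y) (by
    intro k i x
    exact hX _ _ _)
  obtain ⟨z, hz⟩ := countable_case (H := G₁) P k ((φ.comp H.subtype).comp G₁.subtype) f c hk hP hf
    hf1 hf0 (fun h => hpp h h.2) (by
      intro g hg
      have hg' : ((g : H) : G) ≠ 1 := by
        intro h
        exact hg (Subtype.ext (Subtype.ext h))
      obtain ⟨l, B, i1, i2, i3, i4, ψ, h1, h2⟩ := hsep _ hg'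
      exact ⟨l, B, i1, i2, i3, i4, (ψ.comp H.subtype).comp G₁.subtype, fun h hh => h1 _ hh, h2⟩)
    Z
  rw [hZ, Pool.Agent.TH107.AT.vdim_res] at hz
  obtain ⟨r, hr⟩ := hG₁q
  have hcard : (G₁.index : ℝ) = Fintype.card (H ⧸ G₁) := by
    rw [← Nat.card_eq_fintype_card]
    rfl
  refine ⟨r * z, ?_⟩
  rw [hdim, hr]
  push_cast
  rw [hcard, ← hz]
  ring

end Pool.Agent.H320.PG
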