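import Pool.Agent.H320.GS.Base

/-!
helper320: the class of pairs `(G, d)` for a given choice of one prime `π l` for each prime `l`, and
integrality with complex coefficients.
-/

set_option autoImplicit false

namespace Pool.Agent.H320.PG

open Filter Topology
open Pool.Agent.H371.SA Pool.Agent.H371.SB
open Pool.Agent.H80R2.BC (L2 GMat vdim kerA Coef act)
open Pool.Agent.W656.VA

/-- for every prime `l` there are data for `G` at the prime `π l` with a denominator whose `l`-part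
divides `d` -/
def CP (π : ℕ → ℕ) (G : Type) [Group G] (d : ℕ) : Prop :=
  0 < d ∧ ∀ l : ℕ, l.Prime → ∃ (_ : Fact (π l).Prime) (c q : ℕ), GS (π l) c q G ∧
    ∃ r : ℕ, ¬ l ∣ r ∧ q * c ∣ r * d

theorem CP.prod {π : ℕ → ℕ} {G H : Type} [Group G] [Group H] {d e : ℕ} (hG : CP π G d)
    (hH : CP π H e) : CP π (G × H) (d * e) := by
  refine ⟨Nat.mul_pos hG.1 hH.1, fun l hl => ?_⟩
  obtain ⟨i1, c, q, hc, r, hr, h⟩ := hG.2 l hl
  obtain ⟨i2, c', q', hc', r', hr', h'⟩ := hH.2 l hl
  refine ⟨i1, c * c', q * q', GS.prod (π l) c c' q q' G H hc hc', r * r', ?_, ?_⟩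
  · intro h
    rcases hl.dvd_mul.1 h with h | h
    · exact hr h
    · exact hr' h
  · have := mul_dvd_mul h h'
    have e1 : r * d * (r' * e) = r * r' * (d * e) := by ring
    have e2 : q * c * (q' * c') = q * q' * (c * c') := by ring
    rwa [e1, e2] at this

theorem CP.sub {π : ℕ → ℕ} {G H : Type} [Group G] [Group H] {d : ℕ} (f : H →* G)
    (hf : Function.Injective f) (hG : CP π G d) : CP π H d := by
  refine ⟨hG.1, fun l hl => ?_⟩
  obtain ⟨i1, c, q, hc, r, hr, h⟩ := hG.2 l hl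
  exact ⟨i1, c, q, GS.sub (π l) c q G H f hf hc, r, hr, h⟩

theorem CP.free {π : ℕ → ℕ} {G : Type} [Group G] {d : ℕ} (m : ℕ) (hG : CP π G d) :
    CP π (Monoid.Coprod G (FreeGroup (Fin m))) d := by
  refine ⟨hG.1, fun l hl => ?_⟩
  obtain ⟨i1, c, q, hc, r, hr, h⟩ := hG.2 l hl
  exact ⟨i1, c, q, GS.coprod_free (π l) c q G m hc, r, hr, h⟩

/-- `G₁ ∗ G₂` is contained in `(G₁ × G₂) ∗ ℤ` -/
theorem CP.mul {π : ℕ → ℕ} {G : Type} [Group G] {d : ℕ} (e : ℕ) (he : 0 < e) (hG : CP π G d) :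
    CP π G (d * e) := by
  refine ⟨Nat.mul_pos hG.1 he, fun l hl => ?_⟩
  obtain ⟨i1, c, q, hc, r, hr, h⟩ := hG.2 l hl
  refine ⟨i1, c, q, hc, r, hr, h.trans ⟨e, by ring⟩⟩

theorem CP.main {π : ℕ → ℕ} {G : Type} [Group G] {d : ℕ} (hG : CP π G d) (v : ℝ)
    (hv : Val (⊤ : Subring ℂ) G v) : ∃ z : ℤ, (d : ℝ) * v = z := by
  refine base_change' (fun G _ d => CP π G d) (fun G _ d h => h.1)
    (fun G H _ _ d e hG hH => CP.prod hG hH) (fun G _ m d hG => CP.free m hG)
    (Int.castRingHom ℂ).range ?_ ⊤ G d hG v hv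
  intro G _ d hG v hv
  apply Tx.int_of_local
  intro l hl
  obtain ⟨i1, c, q, hc, r, hr, e, he⟩ := hG.2 l hl
  obtain ⟨z, hz⟩ := GS.local (π l) c q G hc v hv
  refine ⟨r, hr, e * z, ?_⟩
  have he' : (r : ℝ) * d = q * c * e := by exact_mod_cast he
  push_cast
  linear_combination v * he' + (e : ℝ) * hz

/-- integrality for the explicit formula of the dimension -/
theorem kd_int_of {G : Type} [Group G] [DecidableEq G] {d : ℕ}
    (hG : ∀ v : ℝ, Val (⊤ : Subring ℂ) G v → ∃ z : ℤ, (d : ℝ) * v = z) (k n : ℕ)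
    (A : Matrix (Fin k) (Fin n) (G →₀ ℂ)) : ∃ z : ℤ, (d : ℝ) * kd A = z := by
  let A' : GMat (Fin n) (Fin k) G := fun i j => (A j i).equivMapDomain (Equiv.inv G)
  obtain ⟨z, hz⟩ := hG _ (val_of A' (R := ⊤) fun _ _ _ => Subring.mem_top _)
  refine ⟨z, ?_⟩
  rw [← hz]
  have hS : ({x : lp (fun _ : Fin k × G => ℂ) 2 | ∀ i : Fin n, ∀ g : G,
      ∑ j' : Fin k, (A j' i).sum (fun h c => x (j', g * h⁻¹) * c) = 0} :
      Set (lp (fun _ : Fin k × G => ℂ) 2)) = (kerA A' : Set (L2 (Fin k × G))) := by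
    ext x
    change _ ↔ ∀ i g, act A' x i g = 0
    refine forall_congr' fun i => forall_congr' fun g => ?_
    have : act A' x i g = ∑ j' : Fin k, (A j' i).sum (fun h c => x (j', g * h⁻¹) * c) := by
      unfold act
      refine Finset.sum_congr rfl fun j _ => ?_
      change ((A j i).equivMapDomain (Equiv.inv G)).sum _ = _
      rw [Finsupp.sum_equivMapDomain, Finsupp.sum, Finsupp.sum]
      refine Finset.sum_congr rfl fun h _ => ?_
      rw [mul_comm]
      rfl
    rw [this]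
  have hv : vdim (kerA A') = kd A := by
    unfold vdim Pool.Agent.H371.SB.kd
    rw [hS]
    refine Finset.sum_congr rfl fun j _ => ?_
    have e : Pool.Agent.H80R2.BC.dl G j =
        (lp.single 2 (j, (1 : G)) (1 : ℂ) : lp (fun _ : Fin k × G => ℂ) 2) := by
      unfold Pool.Agent.H80R2.BC.dl
      congr 1
      exact Subsingleton.elim _ _
    rw [e]
  rw [← hv]

/-- passage from the finitely generated subgroups to the group -/
theorem val_of_fg {G : Type} [Group G] {d : ℕ}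
    (h : ∀ H : Subgroup G, H.FG → ∀ v : ℝ, Val (⊤ : Subring ℂ) H v → ∃ z : ℤ, (d : ℝ) * v = z)
    (v : ℝ) (hv : Val (⊤ : Subring ℂ) G v) : ∃ z : ℤ, (d : ℝ) * v = z := by
  classical
  obtain ⟨m, n, X, hX, rfl⟩ := hv
  let s : Finset G := Finset.univ.biUnion fun k : Fin n => Finset.univ.biUnion fun i : Fin m =>
    (X k i).support
  let H : Subgroup G := Subgroup.closure (s : Set G)
  have hs : ∀ k i, ∀ x ∈ (X k i).support, x ∈ H := by
    intro k i x hx
    apply Subgroup.subset_closure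
    simp only [s, Finset.coe_biUnion, Finset.coe_univ, Set.mem_iUnion, Finset.mem_coe]
    exact ⟨k, trivial, i, trivial, hx⟩
  let Y : GMat (Fin n) (Fin m) H := fun k i => (X k i).comapDomain H.subtype
    H.subtype_injective.injOn
  have hYX : Pool.Agent.H80R2.BC.push H.subtype Y = X := by
    funext k i
    change Finsupp.mapDomain _ _ = _
    rw [Finsupp.mapDomain_comapDomain _ H.subtype_injective]
    intro x hx
    exact ⟨⟨x, hs k i x hx⟩, rfl⟩
  have hdim : vdim (kerA X) = vdim (kerA Y) := by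
    rw [← hYX]
    exact vdim_push H.subtype H.subtype_injective Y
  rw [hdim]
  exact h H ⟨s, rfl⟩ _ (val_of Y (R := ⊤) fun _ _ _ => Subring.mem_top _)

end Pool.Agent.H320.PG
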