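import Pool.Agent.H320.GS.Fst

set_option autoImplicit false

/-! # Finitely generated rings of rational functions embed in power series rings -/

namespace Pool.Agent.H320.NT

namespace FR1

open MvPolynomial

instance instDomP (k : ℕ) : IsDomain (MvPowerSeries (Fin k) ℂ) := NoZeroDivisors.to_isDomain _

/-- The coefficientwise map of an injective homomorphism is injective. -/
theorem mapInj {σ R S : Type} [CommRing R] [CommRing S] (f : R →+* S)
    (hf : Function.Injective f) :
    Function.Injective (MvPowerSeries.map (σ := σ) f) := by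
  intro a b h
  ext n
  apply hf
  rw [← MvPowerSeries.coeff_map, ← MvPowerSeries.coeff_map, h]

variable {k : ℕ} (C : Subring ℂ) (u : Fin k → C)

/-- The shift, with values in the power series. -/
noncomputable def tau : MvPolynomial (Fin k) C →+* MvPowerSeries (Fin k) ℂ :=
  eval₂Hom ((MvPowerSeries.C (σ := Fin k) (R := ℂ)).comp C.subtype)
    (fun j => MvPowerSeries.X j + MvPowerSeries.C (u j : ℂ))

/-- The shift of polynomials. -/
noncomputable def sh (v : Fin k → ℂ) : MvPolynomial (Fin k) ℂ →+* MvPolynomial (Fin k) ℂ :=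
  eval₂Hom MvPolynomial.C (fun j => X j + MvPolynomial.C (v j))

theorem sh_inj (v : Fin k → ℂ) : Function.Injective (sh v) := by
  have h : (sh (fun j => - v j)).comp (sh v) = RingHom.id _ := by
    apply MvPolynomial.ringHom_ext
    · intro r
      simp [sh]
    · intro i
      simp [sh]
  apply Function.LeftInverse.injective (g := sh (fun j => - v j))
  intro x
  exact RingHom.congr_fun h x

theorem tau_eq : tau C u = (coeToMvPowerSeries.ringHom (σ := Fin k) (R := ℂ)).comp
    ((sh (fun j => (u j : ℂ))).comp (MvPolynomial.map C.subtype)) := by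
  apply MvPolynomial.ringHom_ext
  · intro r
    simp [tau, sh]
  · intro i
    simp [tau, sh]

theorem tau_inj : Function.Injective (tau C u) := by
  rw [tau_eq, RingHom.coe_comp, RingHom.coe_comp]
  have h1 : Function.Injective (coeToMvPowerSeries.ringHom (σ := Fin k) (R := ℂ)) :=
    MvPolynomial.coe_injective _ _
  exact h1.comp ((sh_inj _).comp (MvPolynomial.map_injective _ Subtype.coe_injective))

theorem const_tau (p : MvPolynomial (Fin k) C) :
    MvPowerSeries.constantCoeff (tau C u p) = ((eval u p : C) : ℂ) := by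
  have h : (MvPowerSeries.constantCoeff (σ := Fin k) (R := ℂ)).comp (tau C u) =
      C.subtype.comp (eval u) := by
    apply MvPolynomial.ringHom_ext
    · intro r
      simp [tau]
    · intro i
      simp [tau]
  exact RingHom.congr_fun h p

/-- A polynomial with coefficients in `D` is mapped to a power series over `D`. -/
theorem tau_mem (D : Subring ℂ) (hu : ∀ j, (u j : ℂ) ∈ D) (p : MvPolynomial (Fin k) C)
    (hp : ∀ m ∈ p.support, ((p.coeff m : C) : ℂ) ∈ D) :
    tau C u p ∈ (MvPowerSeries.map (σ := Fin k) D.subtype).range := by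
  have h : tau C u p = ∑ d ∈ p.support, (MvPowerSeries.C (σ := Fin k) (R := ℂ)).comp C.subtype
      (p.coeff d) * ∏ i, (MvPowerSeries.X i + MvPowerSeries.C (u i : ℂ)) ^ d i :=
    MvPolynomial.eval₂_eq' _ _ _
  rw [h]
  refine Subring.sum_mem _ fun d hd => Subring.mul_mem _ ?_ (Subring.prod_mem _ fun i _ =>
    Subring.pow_mem _ (Subring.add_mem _ ?_ ?_) _)
  · exact ⟨MvPowerSeries.C ⟨_, hp d hd⟩, by rw [MvPowerSeries.map_C]; rfl⟩
  · exact ⟨MvPowerSeries.X i, by rw [MvPowerSeries.map_X]⟩
  · exact ⟨MvPowerSeries.C ⟨_, hu i⟩, by rw [MvPowerSeries.map_C]; rfl⟩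

/-- A point where a nonzero polynomial does not vanish. -/
theorem exists_pt (p : MvPolynomial (Fin k) C) (hp : p ≠ 0) : ∃ u : Fin k → C, eval u p ≠ 0 := by
  by_contra h
  push Not at h
  apply hp
  apply MvPolynomial.funext
  intro x
  rw [h x, map_zero]

/-- The extension of `tau` to the fraction fields. -/
noncomputable def Tau : FractionRing (MvPolynomial (Fin k) C) →+*
    FractionRing (MvPowerSeries (Fin k) ℂ) :=
  IsFractionRing.lift (g := (algebraMap (MvPowerSeries (Fin k) ℂ)
    (FractionRing (MvPowerSeries (Fin k) ℂ))).comp (tau C u))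
    ((IsFractionRing.injective (MvPowerSeries (Fin k) ℂ)
      (FractionRing (MvPowerSeries (Fin k) ℂ))).comp (tau_inj C u))

theorem Tau_alg (a : MvPolynomial (Fin k) C) :
    Tau C u (algebraMap _ _ a) = algebraMap (MvPowerSeries (Fin k) ℂ)
      (FractionRing (MvPowerSeries (Fin k) ℂ)) (tau C u a) := by
  unfold Tau
  rw [IsFractionRing.lift_algebraMap]
  rfl

/-- The power series over `D` in the fraction field. -/
noncomputable def kap (k : ℕ) (D : Subring ℂ) : MvPowerSeries (Fin k) D →+*
    FractionRing (MvPowerSeries (Fin k) ℂ) :=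
  (algebraMap (MvPowerSeries (Fin k) ℂ) (FractionRing (MvPowerSeries (Fin k) ℂ))).comp
    (MvPowerSeries.map D.subtype)

theorem kap_inj (k : ℕ) (D : Subring ℂ) : Function.Injective (kap k D) := by
  unfold kap
  rw [RingHom.coe_comp]
  exact (IsFractionRing.injective (MvPowerSeries (Fin k) ℂ)
      (FractionRing (MvPowerSeries (Fin k) ℂ))).comp (mapInj D.subtype Subtype.coe_injective)

/-- The key step. -/
theorem Tau_mem (D : Subring ℂ) (hu : ∀ j, (u j : ℂ) ∈ D) (a b : MvPolynomial (Fin k) C)
    (ha : ∀ m ∈ a.support, ((a.coeff m : C) : ℂ) ∈ D)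
    (hb : ∀ m ∈ b.support, ((b.coeff m : C) : ℂ) ∈ D)
    (hb0 : eval u b ≠ 0) (hb1 : (((eval u b : C) : ℂ))⁻¹ ∈ D) :
    Tau C u (algebraMap _ _ a / algebraMap _ _ b) ∈ (kap k D).range := by
  obtain ⟨a', ha'⟩ := tau_mem C u D hu a ha
  obtain ⟨b', hb'⟩ := tau_mem C u D hu b hb
  have hc : ((MvPowerSeries.constantCoeff b' : D) : ℂ) = ((eval u b : C) : ℂ) := by
    rw [← const_tau, ← hb', MvPowerSeries.constantCoeff_map]
    rfl
  have hne : ((eval u b : C) : ℂ) ≠ 0 := by
    intro h
    apply hb0
    exact Subtype.coe_injective h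
  have hunit : IsUnit (MvPowerSeries.constantCoeff b' : D) := by
    refine IsUnit.of_mul_eq_one ⟨_, hb1⟩ ?_
    apply Subtype.coe_injective
    show ((MvPowerSeries.constantCoeff b' : D) : ℂ) * (((eval u b : C) : ℂ))⁻¹ = 1
    rw [hc, mul_inv_cancel₀ hne]
  obtain ⟨w, hw⟩ := (MvPowerSeries.isUnit_iff_constantCoeff.mpr hunit).exists_right_inv
  have h1 : kap k D b' * kap k D w = 1 := by rw [← map_mul, hw, map_one]
  have h2 : kap k D b' ≠ 0 := left_ne_zero_of_mul_eq_one h1
  refine ⟨a' * w, ?_⟩
  rw [map_div₀, Tau_alg, Tau_alg, ← ha', ← hb', map_mul, eq_div_iff]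
  · show kap k D a' * kap k D w * kap k D b' = kap k D a'
    rw [mul_assoc, mul_comm (kap k D w), h1, mul_one]
  · exact h2

end FR1

open FR1 in
theorem f2 : F2 := by
  classical
  intro C F hCF k T
  have hex : ∀ t : FractionRing (MvPolynomial (Fin k) C), ∃ a b : MvPolynomial (Fin k) C,
      b ≠ 0 ∧ algebraMap _ (FractionRing (MvPolynomial (Fin k) C)) a / algebraMap _ _ b = t := by
    intro t
    obtain ⟨a, b, hb, h⟩ := IsFractionRing.div_surjective (MvPolynomial (Fin k) C) t
    exact ⟨a, b, nonZeroDivisors.ne_zero hb, h⟩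
  choose a b hb hab using hex
  obtain ⟨u, hu⟩ := exists_pt C (∏ t ∈ T, b t) (Finset.prod_ne_zero_iff.mpr fun t _ => hb t)
  rw [map_prod, Finset.prod_ne_zero_iff] at hu
  let T₀ : Finset ℂ := (Finset.univ.image fun j => (u j : ℂ)) ∪
    T.biUnion fun t => ((a t).support.image fun m => (((a t).coeff m : C) : ℂ)) ∪
      (((b t).support.image fun m => (((b t).coeff m : C) : ℂ)) ∪
        {(((MvPolynomial.eval u (b t) : C) : ℂ))⁻¹})
  have hT : ∀ x ∈ T₀, x ∈ Subring.closure (T₀ : Set ℂ) := fun x hx =>
    Subring.subset_closure (Finset.mem_coe.mpr hx)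
  have huD : ∀ j, (u j : ℂ) ∈ Subring.closure (T₀ : Set ℂ) := fun j =>
    hT _ (Finset.mem_union_left _ (Finset.mem_image_of_mem _ (Finset.mem_univ j)))
  have haD : ∀ t ∈ T, ∀ m ∈ (a t).support, (((a t).coeff m : C) : ℂ) ∈
      Subring.closure (T₀ : Set ℂ) := fun t ht m hm =>
    hT _ (Finset.mem_union_right _ (Finset.mem_biUnion.mpr ⟨t, ht,
      Finset.mem_union_left _ (Finset.mem_image_of_mem _ hm)⟩))
  have hbD : ∀ t ∈ T, ∀ m ∈ (b t).support, (((b t).coeff m : C) : ℂ) ∈
      Subring.closure (T₀ : Set ℂ) := fun t ht m hm =>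
    hT _ (Finset.mem_union_right _ (Finset.mem_biUnion.mpr ⟨t, ht,
      Finset.mem_union_right _ (Finset.mem_union_left _ (Finset.mem_image_of_mem _ hm))⟩))
  have hcD : ∀ t ∈ T, (((MvPolynomial.eval u (b t) : C) : ℂ))⁻¹ ∈
      Subring.closure (T₀ : Set ℂ) := fun t ht =>
    hT _ (Finset.mem_union_right _ (Finset.mem_biUnion.mpr ⟨t, ht,
      Finset.mem_union_right _ (Finset.mem_union_right _ (Finset.mem_singleton_self _))⟩))
  refine ⟨T₀, ?_, ?_⟩
  · intro x hx
    rcases Finset.mem_union.mp hx with h | h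
    · obtain ⟨j, -, rfl⟩ := Finset.mem_image.mp h
      exact hCF _ (u j).2
    · obtain ⟨t, ht, h⟩ := Finset.mem_biUnion.mp h
      rcases Finset.mem_union.mp h with h | h
      · obtain ⟨m, -, rfl⟩ := Finset.mem_image.mp h
        exact hCF _ ((a t).coeff m).2
      · rcases Finset.mem_union.mp h with h | h
        · obtain ⟨m, -, rfl⟩ := Finset.mem_image.mp h
          exact hCF _ ((b t).coeff m).2
        · rw [Finset.mem_singleton.mp h]
          exact F.inv_mem (hCF _ (MvPolynomial.eval u (b t)).2)
  · set D := Subring.closure (T₀ : Set ℂ) with hD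
    have hle : Subring.closure (T : Set (FractionRing (MvPolynomial (Fin k) C))) ≤
        ((kap k D).range).comap (Tau C u) := by
      rw [Subring.closure_le]
      intro t ht
      have ht' : t ∈ T := Finset.mem_coe.mp ht
      show Tau C u t ∈ (kap k D).range
      have h := Tau_mem C u D huD (a t) (b t) (haD t ht') (hbD t ht') (hu t ht') (hcD t ht')
      rwa [hab t] at h
    have hcod : ∀ x : Subring.closure (T : Set (FractionRing (MvPolynomial (Fin k) C))),
        (Tau C u).comp (Subring.subtype _) x ∈ (kap k D).range := fun x => hle x.2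
    have hbij : Function.Bijective (kap k D).rangeRestrict := by
      constructor
      · intro x y h
        exact kap_inj k D (Subtype.ext_iff.mp h)
      · exact RingHom.rangeRestrict_surjective _
    refine ⟨((RingEquiv.ofBijective _ hbij).symm : (kap k D).range →+* _).comp
      (((Tau C u).comp (Subring.subtype _)).codRestrict (kap k D).range hcod), ?_⟩
    intro x y h
    have h1 := (RingEquiv.ofBijective _ hbij).symm.injective h
    have h2 : Tau C u (x : FractionRing (MvPolynomial (Fin k) C)) = Tau C u y :=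
      Subtype.ext_iff.mp h1
    exact Subtype.coe_injective ((Tau C u).injective h2)

end Pool.Agent.H320.NT
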