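import Pool.Agent.H320.GS.Act
import Pool.Agent.H320.SP.Final
import Pool.Agent.H371.SC.V6

/-!
helper320: general linear groups over augmented algebras over rings which embed in `ℤ_p`.
-/

set_option autoImplicit false

namespace Pool.Agent.H320.PG

open Pool.Agent.H371.SA Pool.Agent.H371.SB Pool.Agent.H371.SC
open Pool.Agent.H371.SB.S0x
open Pool.Agent.H371.SC.V5x

/-- the homomorphism to the matrices over the `p`-adic integers -/
noncomputable def toP (p : ℕ) [Fact p.Prime] (n : ℕ) {C R : Type} [CommRing C] [Ring R]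
    [Algebra C R] (ε : R →ₐ[C] C) (ι : C →+* ℤ_[p]) :
    (Matrix (Fin n) (Fin n) R)ˣ →* (Matrix (Fin n) (Fin n) ℤ_[p])ˣ :=
  Units.map ((RingHom.mapMatrix (ι.comp (ε : R →+* C)) :
    Matrix (Fin n) (Fin n) R →+* Matrix (Fin n) (Fin n) ℤ_[p]) :
      Matrix (Fin n) (Fin n) R →* Matrix (Fin n) (Fin n) ℤ_[p])

theorem sep_gl (p : ℕ) [Fact p.Prime] (n : ℕ)
    (C R : Type) [CommRing C] [Ring R] [Algebra C R] (ε : R →ₐ[C] C) (hR : Res ε)
    (ι : C →+* ℤ_[p]) (hι : Function.Injective ι) : Sep p (toP p n ε ι) := by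
  intro g hg
  have h1 : ∃ i j, (g : Matrix (Fin n) (Fin n) R) i j ≠ (1 : Matrix (Fin n) (Fin n) R) i j := by
    by_contra hcon
    push Not at hcon
    apply hg
    apply Units.ext
    ext i j
    exact hcon i j
  obtain ⟨i₀, j₀, hij⟩ := h1
  obtain ⟨k, K, π, hK, hr⟩ := hR _ (sub_ne_zero.2 hij)
  let τ : (Matrix (Fin n) (Fin n) R)ˣ →* (Module.End ℤ_[p] (Fin n × Fin k → ℤ_[p]))ˣ :=
    Units.map (act ι π n p)
  have hτ : ∀ (h : (Matrix (Fin n) (Fin n) R)ˣ) (v : Fin n × Fin k → ℤ_[p]),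
      (τ h : Module.End ℤ_[p] (Fin n × Fin k → ℤ_[p])) v = (Th ι π n h).mulVec v := fun _ _ => rfl
  obtain ⟨B, j1, j2, j3, j4, ψ, h2, h3⟩ := exists_lattice p (Fin n × Fin k → ℤ_[p]) K
    (Fil ι π n p ε) (by
      rw [eq_top_iff]
      intro v _
      refine Submodule.subset_span ⟨[], rfl, by simp, v, ?_⟩
      rw [List.prod_nil]
      have : (Matrix.diagonal fun _ => (1 : R)) = (1 : Matrix (Fin n) (Fin n) R) := Matrix.diagonal_one
      rw [this, map_one, Matrix.one_mulVec]) (by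
      rw [eq_bot_iff, Fil, Submodule.span_le]
      rintro _ ⟨l, hl, hl0, v, rfl⟩
      have h4 : Th ι π n (Matrix.diagonal fun _ => l.prod) = 0 := by
        ext a b
        rw [Th_apply]
        by_cases hab : a.1 = b.1
        · rw [hab, Matrix.diagonal_apply_eq, hK l hl hl0]
          simp
        · rw [Matrix.diagonal_apply_ne _ hab, map_zero]
          simp
      rw [h4, Matrix.zero_mulVec]
      exact Submodule.zero_mem _) _ τ (by
      intro h i x hx
      rw [hτ]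
      exact fil_stable ι π n ε _ i x hx)
  refine ⟨2, B, j1, j2, j3, j4, ψ, ?_, ?_⟩
  · rintro h ⟨a, ha⟩
    apply h2
    intro i x hx
    have h4 : (((h : Matrix (Fin n) (Fin n) R).map ε)).map ι =
        1 + (p : Matrix (Fin n) (Fin n) ℤ_[p]) ^ 2 * a := ha
    refine ⟨(blk k a).mulVec x, blk_stable ι π n ε a i x hx,
      (Th ι π n ((h : Matrix (Fin n) (Fin n) R) -
        ((h : Matrix (Fin n) (Fin n) R).map ε).map (algebraMap C R))).mulVec x, ?_, ?_⟩
    · apply fil_step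
      · intro a b
        rw [Matrix.sub_apply, Matrix.map_apply, Matrix.map_apply, map_sub, AlgHom.commutes]
        exact sub_self _
      · exact hx
    · rw [hτ, map_sub, Th_const ι π n _ a h4, Matrix.sub_mulVec, Matrix.add_mulVec,
        Matrix.one_mulVec]
      have h5 : (((p : ℤ_[p]) ^ 2) • blk k a).mulVec x = ((p : ℤ_[p]) ^ 2) • (blk k a).mulVec x :=
        Matrix.smul_mulVec _ _ _
      rw [h5]
      abel
  · intro h4
    apply hr
    have h5 := h3 g h4
    have h6 : Th ι π n (g : Matrix (Fin n) (Fin n) R) = 1 := by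
      apply Matrix.toLin'.injective
      rw [Matrix.toLin'_one]
      refine LinearMap.ext fun v => ?_
      have h7 := congrArg (fun u : (Module.End ℤ_[p] (Fin n × Fin k → ℤ_[p]))ˣ =>
        (u : Module.End ℤ_[p] (Fin n × Fin k → ℤ_[p])) v) h5
      exact h7
    have h7 : Th ι π n ((g : Matrix (Fin n) (Fin n) R) - 1) = 0 := by
      rw [map_sub, map_one, h6, sub_self]
    exact Th_inj ι π n hι _ h7 i₀ j₀

/-- the reduction modulo `p` -/
theorem quo_gl (p : ℕ) [Fact p.Prime] (n : ℕ) {G : Type} [Group G]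
    (φ : G →* (Matrix (Fin n) (Fin n) ℤ_[p])ˣ) :
    Quo p (Nat.card (Matrix.GeneralLinearGroup (Fin n) (ZMod p))) φ := by
  classical
  let ρ : Matrix (Fin n) (Fin n) ℤ_[p] →+* Matrix (Fin n) (Fin n) (ZMod p) :=
    RingHom.mapMatrix PadicInt.toZMod
  let π : G →* (Matrix (Fin n) (Fin n) (ZMod p))ˣ := (Units.map (ρ : _ →* _)).comp φ
  refine ⟨(Matrix (Fin n) (Fin n) (ZMod p))ˣ, inferInstance, inferInstance, π, 0, ?_, ?_⟩
  · rw [pow_zero, mul_one]
  · intro h hh
    have h2 : ρ ((φ h : (Matrix (Fin n) (Fin n) ℤ_[p])ˣ) : Matrix (Fin n) (Fin n) ℤ_[p]) = 1 :=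
      congrArg (fun x : (Matrix (Fin n) (Fin n) (ZMod p))ˣ =>
        (x : Matrix (Fin n) (Fin n) (ZMod p))) hh
    have h3 : ∀ i j, ∃ m : ℤ_[p],
        ((φ h : (Matrix (Fin n) (Fin n) ℤ_[p])ˣ) : Matrix (Fin n) (Fin n) ℤ_[p]) i j =
          (1 : Matrix (Fin n) (Fin n) ℤ_[p]) i j + (p : ℤ_[p]) * m := by
      intro i j
      have h4 := congrFun (congrFun h2 i) j
      have h5 : PadicInt.toZMod (((φ h : (Matrix (Fin n) (Fin n) ℤ_[p])ˣ) :
          Matrix (Fin n) (Fin n) ℤ_[p]) i j - (1 : Matrix (Fin n) (Fin n) ℤ_[p]) i j) = 0 := by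
        rw [map_sub, sub_eq_zero]
        change PadicInt.toZMod _ = (1 : Matrix (Fin n) (Fin n) (ZMod p)) i j at h4
        rw [h4, Matrix.one_apply, Matrix.one_apply]
        split_ifs <;> simp
      have h6 : (((φ h : (Matrix (Fin n) (Fin n) ℤ_[p])ˣ) :
          Matrix (Fin n) (Fin n) ℤ_[p]) i j - (1 : Matrix (Fin n) (Fin n) ℤ_[p]) i j) ∈
            RingHom.ker (PadicInt.toZMod (p := p)) := h5
      rw [PadicInt.ker_toZMod, PadicInt.maximalIdeal_eq_span_p, Ideal.mem_span_singleton] at h6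
      obtain ⟨m, hm⟩ := h6
      exact ⟨m, by rw [← hm]; ring⟩
    choose m hm using h3
    refine ⟨Matrix.of m, ?_⟩
    rw [pow_one]
    ext i j
    rw [Matrix.add_apply, hm i j]
    have h6 : ((p : Matrix (Fin n) (Fin n) ℤ_[p]) * (Matrix.of m)) i j =
        (p : ℤ_[p]) * m i j := by
      rw [← nsmul_eq_mul, Matrix.smul_apply, nsmul_eq_mul]
      rfl
    rw [h6]

/-- the data for general linear groups -/
theorem GS.gl (p : ℕ) [Fact p.Prime] (n : ℕ)
    (C R : Type) [CommRing C] [Ring R] [Algebra C R] (ε : R →ₐ[C] C) (hR : Res ε)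
    (ι : C →+* ℤ_[p]) (hι : Function.Injective ι) :
    GS p (cc p n) (Nat.card (Matrix.GeneralLinearGroup (Fin n) (ZMod p)))
      (Matrix (Fin n) (Fin n) R)ˣ :=
  GS.of_cc (toP p n ε ι) (sep_gl p n C R ε hR ι hι) (quo_gl p n _)

end Pool.Agent.H320.PG
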